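import Mathlib

/-! Two elementary lemmas: averaging over configurations, and the gain at one place. -/

set_option autoImplicit false

open Finset

namespace TH951.FE

theorem perm_two {α : Type*} [DecidableEq α] {a b a' b' : α} (h : a ≠ b) (h' : a' ≠ b') :
    ∃ τ : Equiv.Perm α, τ a' = a ∧ τ b' = b := by
  refine ⟨(Equiv.swap a' a).trans (Equiv.swap (Equiv.swap a' a b') b), ?_, ?_⟩
  · rw [Equiv.trans_apply, Equiv.swap_apply_left]
    refine Equiv.swap_apply_of_ne_of_ne ?_ h
    intro h1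
    apply h'
    have h2 : Equiv.swap a' a a' = Equiv.swap a' a b' := by
      rw [Equiv.swap_apply_left]; exact h1
    exact (Equiv.swap a' a).injective h2
  · rw [Equiv.trans_apply, Equiv.swap_apply_left]

theorem card_off (β : Type*) [Fintype β] [DecidableEq β] :
    (((univ : Finset β).offDiag.card : ℕ) : ℝ) = (Fintype.card β : ℝ) * (Fintype.card β - 1) := by
  rw [Finset.offDiag_card, Finset.card_univ, Nat.cast_sub (Nat.le_mul_self _)]
  push_cast
  ring

/-- averaging over the injections of `Fin n` into a finite set -/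
theorem avg {α : Type*} [Fintype α] [DecidableEq α] {n : ℕ} (hn : n ≤ Fintype.card α)
    (h2 : 2 ≤ Fintype.card α) (c : α → α → ℝ) :
    ∃ z : Fin n → α, Function.Injective z ∧
      (Fintype.card α : ℝ) * (Fintype.card α - 1) *
        ∑ p ∈ (univ : Finset (Fin n)).offDiag, c (z p.1) (z p.2) ≤
      (n : ℝ) * (n - 1) * ∑ p ∈ (univ : Finset α).offDiag, c p.1 p.2 := by
  classical
  obtain ⟨z₀⟩ : Nonempty (Fin n ↪ α) := Function.Embedding.nonempty_of_card_le (by simpa using hn)
  obtain ⟨a₀, b₀, hab₀⟩ := Fintype.exists_pair_of_one_lt_card (by omega : 1 < Fintype.card α)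
  set κ : ℝ := ∑ σ : Equiv.Perm α, c (σ a₀) (σ b₀) with hκ
  have hκ' : ∀ a b : α, a ≠ b → ∑ σ : Equiv.Perm α, c (σ a) (σ b) = κ := by
    intro a b hab
    obtain ⟨τ, h3, h4⟩ := perm_two hab hab₀
    rw [← h3, ← h4]
    exact Equiv.sum_comp (Equiv.mulRight τ) (fun σ : Equiv.Perm α => c (σ a₀) (σ b₀))
  have htot : ∀ σ : Equiv.Perm α, ∑ p ∈ (univ : Finset α).offDiag, c (σ p.1) (σ p.2) =
      ∑ p ∈ (univ : Finset α).offDiag, c p.1 p.2 := by
    intro σ
    refine Finset.sum_bij' (fun p _ => (σ p.1, σ p.2)) (fun p _ => (σ.symm p.1, σ.symm p.2))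
      ?_ ?_ ?_ ?_ ?_
    · intro p hp
      simp only [mem_offDiag, mem_univ, true_and] at hp ⊢
      exact fun h => hp (σ.injective h)
    · intro p hp
      simp only [mem_offDiag, mem_univ, true_and] at hp ⊢
      exact fun h => hp (σ.symm.injective h)
    · intro p hp; simp
    · intro p hp; simp
    · intro p hp; rfl
  set Tot := ∑ p ∈ (univ : Finset α).offDiag, c p.1 p.2 with hTot
  have h3 : ((Fintype.card (Equiv.Perm α) : ℕ) : ℝ) * Tot =
      (Fintype.card α : ℝ) * (Fintype.card α - 1) * κ := by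
    rw [← nsmul_eq_mul, ← Finset.card_univ, ← Finset.sum_const]
    rw [← card_off α, ← nsmul_eq_mul, ← Finset.sum_const]
    rw [← Finset.sum_congr rfl fun (σ : Equiv.Perm α) _ => htot σ, Finset.sum_comm]
    refine Finset.sum_congr rfl fun p hp => ?_
    exact hκ' _ _ (Finset.mem_offDiag.1 hp).2.2
  have h4 : ∑ σ : Equiv.Perm α, ∑ p ∈ (univ : Finset (Fin n)).offDiag,
      c (σ (z₀ p.1)) (σ (z₀ p.2)) = (n : ℝ) * (n - 1) * κ := by
    rw [Finset.sum_comm]
    have h5 : ∀ p ∈ (univ : Finset (Fin n)).offDiag,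
        ∑ σ : Equiv.Perm α, c (σ (z₀ p.1)) (σ (z₀ p.2)) = κ := fun p hp =>
      hκ' _ _ fun h => (Finset.mem_offDiag.1 hp).2.2 (z₀.injective h)
    rw [Finset.sum_congr rfl h5, Finset.sum_const, nsmul_eq_mul, card_off]
    simp
  have hP : (0 : ℝ) < (Fintype.card (Equiv.Perm α) : ℕ) := by
    have : 0 < Fintype.card (Equiv.Perm α) := Fintype.card_pos
    exact_mod_cast this
  obtain ⟨σ, -, hσ⟩ := Finset.exists_le_of_sum_le (s := (univ : Finset (Equiv.Perm α)))
    (f := fun σ => ∑ p ∈ (univ : Finset (Fin n)).offDiag, c (σ (z₀ p.1)) (σ (z₀ p.2)))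
    (g := fun _ => (n : ℝ) * (n - 1) * κ / (Fintype.card (Equiv.Perm α) : ℕ))
    Finset.univ_nonempty (by
      rw [h4, Finset.sum_const, Finset.card_univ, nsmul_eq_mul]
      exact (mul_div_cancel₀ _ hP.ne').ge)
  refine ⟨fun i => σ (z₀ i), σ.injective.comp z₀.injective, ?_⟩
  have hc0 : 0 ≤ (Fintype.card α : ℝ) * (Fintype.card α - 1) := by
    have : (1 : ℝ) ≤ Fintype.card α := by exact_mod_cast (by omega : 1 ≤ Fintype.card α)
    have h5 : (0 : ℝ) ≤ Fintype.card α - 1 := by linarith
    positivity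
  refine (mul_le_mul_of_nonneg_left hσ hc0).trans (le_of_eq ?_)
  have h6 : (Fintype.card α : ℝ) * (Fintype.card α - 1) *
      ((n : ℝ) * (n - 1) * κ / (Fintype.card (Equiv.Perm α) : ℕ)) =
      (n : ℝ) * (n - 1) * ((Fintype.card α : ℝ) * (Fintype.card α - 1) * κ) /
        (Fintype.card (Equiv.Perm α) : ℕ) := by ring
  rw [h6, ← h3]
  field_simp

/-- the gain at one place -/
theorem local_gain {n M : ℕ} (g : Fin n → Fin n → ℝ) (s : Fin n → ℝ) (h a b : ℝ) (hh : 0 ≤ h)
    (hab : 0 ≤ a + b) (hg : ∀ i k, i ≠ k → |g i k - s i - s k| ≤ h)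
    (cell : Fin n → Fin M) (hcell : ∀ i k, i ≠ k → cell i = cell k → a ≤ g i k)
    (hlow : ∀ i k, i ≠ k → -b ≤ g i k) :
    (n : ℝ) * (n - 1) * (a - 2 * h) - 2 * M * n * (a + b) ≤
      ∑ p ∈ (univ : Finset (Fin n)).offDiag, g p.1 p.2 := by
  classical
  set E : Finset (Fin n) := univ.filter fun i => s i < (a - h) / 2 with hE
  have hEM : E.card ≤ M := by
    have h1 : E.card ≤ (univ : Finset (Fin M)).card := by
      refine Finset.card_le_card_of_injOn cell (fun _ _ => Finset.mem_coe.2 (mem_univ _)) ?_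
      intro i hi k hk hik
      by_contra hne
      have h2 := hcell i k hne hik
      have h3 := abs_le.1 (hg i k hne)
      have h4 := (Finset.mem_filter.1 (Finset.mem_coe.1 hi)).2
      have h5 := (Finset.mem_filter.1 (Finset.mem_coe.1 hk)).2
      linarith [h3.2]
    simpa using h1
  let ind : Fin n → ℝ := fun i => if i ∈ E then 1 else 0
  have hind0 : ∀ i, 0 ≤ ind i := fun i => by
    simp only [ind]; split_ifs <;> norm_num
  have hind : ∑ i, ind i ≤ M := by
    have h1 : ∑ i, ind i = E.card := by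
      simp [ind]
    rw [h1]
    exact_mod_cast hEM
  have key : ∀ p ∈ (univ : Finset (Fin n)).offDiag,
      (a - 2 * h) - (a + b) * (ind p.1 + ind p.2) ≤ g p.1 p.2 := by
    intro p hp
    have hne := (Finset.mem_offDiag.1 hp).2.2
    by_cases h1 : p.1 ∈ E
    · have h2 : 1 ≤ ind p.1 + ind p.2 := by
        have : ind p.1 = 1 := if_pos h1
        rw [this]
        have := hind0 p.2
        linarith
      have h3 := hlow _ _ hne
      nlinarith
    · by_cases h2 : p.2 ∈ E
      · have h2 : 1 ≤ ind p.1 + ind p.2 := by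
          have : ind p.2 = 1 := if_pos h2
          rw [this]
          have := hind0 p.1
          linarith
        have h3 := hlow _ _ hne
        nlinarith
      · have e1 : ind p.1 = 0 := if_neg h1
        have e2 : ind p.2 = 0 := if_neg h2
        rw [e1, e2]
        have h3 : (a - h) / 2 ≤ s p.1 := by
          by_contra hcon
          exact h1 (Finset.mem_filter.2 ⟨mem_univ _, not_le.1 hcon⟩)
        have h4 : (a - h) / 2 ≤ s p.2 := by
          by_contra hcon
          exact h2 (Finset.mem_filter.2 ⟨mem_univ _, not_le.1 hcon⟩)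
        have h5 := abs_le.1 (hg _ _ hne)
        linarith [h5.1]
  have hsum := Finset.sum_le_sum key
  refine le_trans ?_ hsum
  rw [Finset.sum_sub_distrib, Finset.sum_const, nsmul_eq_mul, Finset.offDiag_card,
    Finset.card_univ, Fintype.card_fin, Nat.cast_sub (Nat.le_mul_self _), ← Finset.mul_sum]
  have h1 : ∑ p ∈ (univ : Finset (Fin n)).offDiag, (ind p.1 + ind p.2) ≤ 2 * (M * n) := by
    have h2 : ∑ p ∈ (univ : Finset (Fin n)).offDiag, (ind p.1 + ind p.2) ≤
        ∑ p ∈ (univ : Finset (Fin n)) ×ˢ (univ : Finset (Fin n)), (ind p.1 + ind p.2) := by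
      refine Finset.sum_le_sum_of_subset_of_nonneg ?_ fun p _ _ => add_nonneg (hind0 _) (hind0 _)
      intro p hp
      simp
    refine h2.trans ?_
    rw [Finset.sum_product]
    have h3 : ∀ x : Fin n, ∑ y : Fin n, (ind (x, y).1 + ind (x, y).2) =
        n * ind x + ∑ y, ind y := by
      intro x
      rw [Finset.sum_add_distrib]
      simp
    rw [Finset.sum_congr rfl fun x _ => h3 x, Finset.sum_add_distrib, ← Finset.mul_sum,
      Finset.sum_const, Finset.card_univ, Fintype.card_fin, nsmul_eq_mul]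
    have hn0 : (0 : ℝ) ≤ n := Nat.cast_nonneg n
    nlinarith
  push_cast
  nlinarith

end TH951.FE
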