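import Mathlib
import Pool.Agent.TH951.NF.Hts
import Pool.Agent.Helper259.HtExt

/-! Heights of elements of a number field and their logarithmic sizes. -/

set_option autoImplicit false

open Height NumberField Module Finset

namespace TH951.FE

universe u

variable {K : Type u} [Field K] [NumberField K]

theorem logHeight₁_pair (x : K) : logHeight₁ x = logHeight ![x, 1] := by
  rw [logHeight₁_eq_log_mulHeight₁, logHeight_eq_log_mulHeight, mulHeight₁_eq_mulHeight]

theorem logHeight₁_abs (x : K) : logHeight₁ x = finrank ℚ K * absLogHeight₁ x := by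
  have hint : IsIntegral ℚ x := Algebra.IsIntegral.isIntegral x
  unfold absLogHeight₁ absMulHeight₁
  rw [dif_pos hint]
  haveI : FiniteDimensional ℚ (IntermediateField.adjoin ℚ {x}) :=
    IntermediateField.adjoin.finiteDimensional hint
  haveI : NumberField (IntermediateField.adjoin ℚ {x}) := {}
  set y := IntermediateField.AdjoinSimple.gen ℚ x with hy
  rw [Real.log_rpow (mulHeight₁_pos _), ← logHeight₁_eq_log_mulHeight₁]
  have h1 : logHeight₁ x = finrank (IntermediateField.adjoin ℚ {x}) K * logHeight₁ y := by
    rw [logHeight₁_pair, logHeight₁_pair, ← Pool.Agent.Helper259.HtExt.logHeight_ext (L := K)]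
    congr 1
    funext i
    fin_cases i
    · rfl
    · exact (map_one _).symm
  rw [h1, ← mul_assoc]
  congr 1
  have h2 : (finrank ℚ (IntermediateField.adjoin ℚ {x}) : ℝ) ≠ 0 := by
    have : 0 < finrank ℚ (IntermediateField.adjoin ℚ {x}) := finrank_pos
    exact_mod_cast this.ne'
  have h3 : (finrank ℚ K : ℝ) = finrank ℚ (IntermediateField.adjoin ℚ {x}) *
      finrank (IntermediateField.adjoin ℚ {x}) K := by
    exact_mod_cast (finrank_mul_finrank ℚ (IntermediateField.adjoin ℚ {x}) K).symm
  rw [h3]
  field_simp

theorem posLog_add (a : ℝ) (_ : 0 < a) : |Real.log a| = Real.posLog a + Real.posLog a⁻¹ := by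
  unfold Real.posLog
  rw [Real.log_inv]
  rcases le_total 0 (Real.log a) with h | h
  · rw [abs_of_nonneg h, max_eq_right h, max_eq_left (by linarith)]
    ring
  · rw [abs_of_nonpos h, max_eq_left h, max_eq_right (by linarith)]
    ring

theorem posLog_sum_le (y : K) (S : Finset (FinitePlace K)) :
    ∑ v : InfinitePlace K, (v.mult : ℝ) * Real.posLog (v.val y) +
      ∑ v ∈ S, Real.posLog (v.val y) ≤ logHeight₁ y := by
  classical
  rw [NumberField.logHeight₁_eq]
  refine add_le_add le_rfl ?_
  have hfin : (Function.support fun v : FinitePlace K => Real.posLog (v y)).Finite := by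
    by_cases hy : y = 0
    · simp [hy, Real.posLog]
    · refine (FinitePlace.hasFiniteMulSupport hy).subset ?_
      intro v hv h1
      apply hv
      simp only at h1 ⊢
      rw [h1]
      simp [Real.posLog]
  have hsub : (Function.support fun v : FinitePlace K => Real.posLog (v y)) ⊆
      ((S ∪ hfin.toFinset : Finset (FinitePlace K)) : Set (FinitePlace K)) := by
    intro v hv
    rw [Finset.coe_union]
    exact Or.inr (by simpa using hv)
  rw [finsum_eq_sum_of_support_subset _ hsub]
  exact Finset.sum_le_sum_of_subset_of_nonneg Finset.subset_union_left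
    fun v _ _ => Real.posLog_nonneg

theorem abs_log_sum_le {y : K} (hy : y ≠ 0) (S : Finset (FinitePlace K)) :
    ∑ v : InfinitePlace K, (v.mult : ℝ) * |Real.log (v.val y)| +
      ∑ v ∈ S, |Real.log (v.val y)| ≤ 2 * logHeight₁ y := by
  have h1 := posLog_sum_le y S
  have h2 := posLog_sum_le y⁻¹ S
  rw [logHeight₁_inv] at h2
  have e1 : ∀ v : InfinitePlace K, (v.mult : ℝ) * |Real.log (v.val y)| =
      v.mult * Real.posLog (v.val y) + v.mult * Real.posLog (v.val y⁻¹) := by
    intro v
    have h3 : 0 < v.val y := InfinitePlace.pos_iff.2 hy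
    rw [map_inv₀, posLog_add _ h3, mul_add]
  have e2 : ∀ v : FinitePlace K, |Real.log (v.val y)| =
      Real.posLog (v.val y) + Real.posLog (v.val y⁻¹) := by
    intro v
    have h3 : 0 < v.val y := FinitePlace.pos_iff.2 hy
    rw [map_inv₀, posLog_add _ h3]
  rw [Finset.sum_congr rfl fun v _ => e1 v, Finset.sum_congr rfl fun v _ => e2 v,
    Finset.sum_add_distrib, Finset.sum_add_distrib]
  linarith

end TH951.FE
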