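import Mathlib
import Pool.Agent.TH951.NF.Count
import Pool.Agent.TH951.FE.Ht
import Pool.Agent.H951R3.PB.Defs

/-! Configurations of points of the projective line over a number field of bounded degree. -/

set_option autoImplicit false

open Height NumberField Module Finset Pool.Agent.H951R3.PB

namespace TH951.FE

universe u

section xx

variable {K : Type u} [Field K]

/-- the coordinates of the points in which the first three are `∞`, `0`, `1` -/
noncomputable def xx {m : ℕ} (z : Fin (m + 3) → Fin 2 → K) (a : Fin (m + 2)) : K :=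
  wd (z a.succ) (z (0 : Fin (m + 2)).succ) * wd (z (1 : Fin (m + 2)).succ) (z 0) /
    (wd (z a.succ) (z 0) * wd (z (1 : Fin (m + 2)).succ) (z (0 : Fin (m + 2)).succ))

/-- the constant in the formula for the differences -/
noncomputable def kk {m : ℕ} (z : Fin (m + 3) → Fin 2 → K) : K :=
  wd (z (1 : Fin (m + 2)).succ) (z 0) * wd (z (0 : Fin (m + 2)).succ) (z 0) /
    wd (z (1 : Fin (m + 2)).succ) (z (0 : Fin (m + 2)).succ)

variable {m : ℕ} {z : Fin (m + 3) → Fin 2 → K} (hz : ∀ i k, i ≠ k → wd (z i) (z k) ≠ 0)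

include hz

theorem w0 (a : Fin (m + 2)) : wd (z a.succ) (z 0) ≠ 0 := hz _ _ (Fin.succ_ne_zero a)

theorem w10 : wd (z (1 : Fin (m + 2)).succ) (z (0 : Fin (m + 2)).succ) ≠ 0 :=
  hz _ _ fun h => by
    have := Fin.succ_injective _ h
    exact absurd this (by simp)

theorem kk_ne : kk z ≠ 0 := div_ne_zero (mul_ne_zero (w0 hz 1) (w0 hz 0)) (w10 hz)

theorem xx_sub (a b : Fin (m + 2)) : xx z a - xx z b =
    kk z * wd (z a.succ) (z b.succ) / (wd (z a.succ) (z 0) * wd (z b.succ) (z 0)) := by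
  have h1 := w0 hz a
  have h2 := w0 hz b
  have h3 := w10 hz
  unfold xx kk
  rw [div_sub_div _ _ (mul_ne_zero h1 h3) (mul_ne_zero h2 h3)]
  rw [div_mul_eq_mul_div, div_div, div_eq_div_iff (by positivity) (by positivity)]
  simp only [wd]
  ring

omit hz in
theorem xx_zero : xx z 0 = 0 := by
  unfold xx
  have : wd (z (0 : Fin (m + 2)).succ) (z (0 : Fin (m + 2)).succ) = 0 := by
    simp only [wd]; ring
  rw [this, zero_mul, zero_div]

theorem xx_one : xx z 1 = 1 := by
  unfold xx
  rw [mul_comm (wd (z (1 : Fin (m + 2)).succ) (z (0 : Fin (m + 2)).succ))]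
  exact div_self (mul_ne_zero (w0 hz 1) (w10 hz))

theorem xx_inj : Function.Injective (xx z) := by
  intro a b hab
  by_contra hne
  have h := xx_sub hz a b
  rw [hab, sub_self] at h
  exact (div_ne_zero (mul_ne_zero (kk_ne hz) (hz _ _ fun h => hne (Fin.succ_injective _ h)))
    (mul_ne_zero (w0 hz a) (w0 hz b))) h.symm

theorem log_xx (v : AbsoluteValue K ℝ) {a b : Fin (m + 2)} (hab : a ≠ b) :
    Real.log (v (xx z a - xx z b)) = Real.log (v (kk z)) + Real.log (v (wd (z a.succ) (z b.succ))) -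
      (Real.log (v (wd (z a.succ) (z 0))) + Real.log (v (wd (z b.succ) (z 0)))) := by
  have hv : ∀ x : K, x ≠ 0 → v x ≠ 0 := fun x hx => (v.pos hx).ne'
  have hab' : wd (z a.succ) (z b.succ) ≠ 0 := hz _ _ fun h => hab (Fin.succ_injective _ h)
  rw [xx_sub hz, map_div₀, map_mul, map_mul, Real.log_div
    (mul_ne_zero (hv _ (kk_ne hz)) (hv _ hab')) (mul_ne_zero (hv _ (w0 hz a)) (hv _ (w0 hz b))),
    Real.log_mul (hv _ (kk_ne hz)) (hv _ hab'), Real.log_mul (hv _ (w0 hz a)) (hv _ (w0 hz b))]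

theorem log_kk (v : AbsoluteValue K ℝ) :
    Real.log (v (kk z)) = Real.log (v (wd (z (1 : Fin (m + 2)).succ) (z 0))) +
      Real.log (v (wd (z (0 : Fin (m + 2)).succ) (z 0))) -
      Real.log (v (wd (z (1 : Fin (m + 2)).succ) (z (0 : Fin (m + 2)).succ))) := by
  have hv : ∀ x : K, x ≠ 0 → v x ≠ 0 := fun x hx => (v.pos hx).ne'
  unfold kk
  rw [map_div₀, map_mul, Real.log_div (mul_ne_zero (hv _ (w0 hz 1)) (hv _ (w0 hz 0)))
    (hv _ (w10 hz)), Real.log_mul (hv _ (w0 hz 1)) (hv _ (w0 hz 0))]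

theorem log_xx_le (v : AbsoluteValue K ℝ) (u : Fin (m + 3) → ℝ) {a b : Fin (m + 2)} (hab : a ≠ b) :
    |Real.log (v (xx z a - xx z b))| ≤ 6 * ∑ p ∈ (univ : Finset (Fin (m + 3))).offDiag,
      |u p.1 + u p.2 - Real.log (v (wd (z p.1) (z p.2)))| := by
  set G : Fin (m + 3) → Fin (m + 3) → ℝ := fun i k =>
    u i + u k - Real.log (v (wd (z i) (z k))) with hG
  set T := ∑ p ∈ (univ : Finset (Fin (m + 3))).offDiag,
      |u p.1 + u p.2 - Real.log (v (wd (z p.1) (z p.2)))| with hT
  have hle : ∀ i k, i ≠ k → |G i k| ≤ T := by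
    intro i k hik
    have hmem : (i, k) ∈ (univ : Finset (Fin (m + 3))).offDiag :=
      Finset.mem_offDiag.2 ⟨mem_univ _, mem_univ _, hik⟩
    exact Finset.single_le_sum (f := fun p : Fin (m + 3) × Fin (m + 3) =>
      |u p.1 + u p.2 - Real.log (v (wd (z p.1) (z p.2)))|) (fun p _ => abs_nonneg _) hmem
  have h1 : Real.log (v (xx z a - xx z b)) =
      -G (1 : Fin (m + 2)).succ 0 - G (0 : Fin (m + 2)).succ 0 +
        G (1 : Fin (m + 2)).succ (0 : Fin (m + 2)).succ - G a.succ b.succ + G a.succ 0 +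
        G b.succ 0 := by
    rw [log_xx hz v hab, log_kk hz v]
    simp only [hG]
    ring
  have hs : ∀ c : Fin (m + 2), c.succ ≠ 0 := fun c => Fin.succ_ne_zero c
  have e1 := abs_le.1 (hle _ _ (hs 1))
  have e2 := abs_le.1 (hle _ _ (hs 0))
  have e3 := abs_le.1 (hle (1 : Fin (m + 2)).succ (0 : Fin (m + 2)).succ fun h => by
    have := Fin.succ_injective _ h
    exact absurd this (by simp))
  have e4 := abs_le.1 (hle a.succ b.succ fun h => hab (Fin.succ_injective _ h))
  have e5 := abs_le.1 (hle _ _ (hs a))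
  have e6 := abs_le.1 (hle _ _ (hs b))
  rw [h1, abs_le]
  constructor <;> linarith [e1.1, e1.2, e2.1, e2.2, e3.1, e3.2, e4.1, e4.2, e5.1, e5.2, e6.1, e6.2]

end xx

/-- the index of a point -/
def ei {m : ℕ} : Option (Option (Fin m)) → Fin (m + 2)
  | none => 0
  | some none => 1
  | some (some i) => i.succ.succ

theorem nf_core (D : ℕ) : ∃ (N₀ : ℕ) (C₀ : ℝ), 0 ≤ C₀ ∧ ∀ M₀ : ℕ, M₀ ≠ 0 → ∃ A : ℝ, 0 ≤ A ∧
    ∀ (K : Type u) [Field K] [NumberField K], finrank ℚ K ≤ D → ∀ (m : ℕ), N₀ ≤ m →
    ∀ z : Fin (m + 3) → (Fin 2 → K), (∀ i k, i ≠ k → wd (z i) (z k) ≠ 0) →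
    ∀ (S : Finset (FinitePlace K)),
      (∀ v : FinitePlace K, v ∉ S → ∀ i k, i ≠ k → v.val (wd (z i) (z k)) = 1) →
    ∀ (u : FinitePlace K → Fin (m + 3) → ℝ) (Q : ℝ),
      (∑ v ∈ S.filter (fun v => v.val (M₀ : K) = 1), ∑ p ∈ (univ : Finset (Fin (m + 3))).offDiag,
        |u v p.1 + u v p.2 - Real.log (v.val (wd (z p.1) (z p.2)))| ≤ Q) →
      (∀ a, logHeight₁ (xx z a) ≤ C₀ * Q + A) ∧
      ∃ t : AbsoluteValue K ℝ → Fin (m + 2) → ℝ, ∀ S₂ : Finset (FinitePlace K),
        ∑ v : InfinitePlace K, (v.mult : ℝ) * ∑ p ∈ (univ : Finset (Fin (m + 2))).offDiag,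
          |t v.val p.1 + t v.val p.2 - Real.log (v.val (wd (z p.1.succ) (z p.2.succ)))| +
        ∑ v ∈ S₂, ∑ p ∈ (univ : Finset (Fin (m + 2))).offDiag,
          |t v.val p.1 + t v.val p.2 - Real.log (v.val (wd (z p.1.succ) (z p.2.succ)))| ≤
        ((m : ℝ) + 2) ^ 2 * (C₀ * Q + A) := by
  classical
  obtain ⟨N, C, hmain⟩ := NF.main_count.{u} D
  refine ⟨N, 24 * C, by positivity, fun M₀ hM₀ => ?_⟩
  obtain ⟨A', hA'⟩ := hmain M₀ hM₀
  refine ⟨2 * D + 4 * (D * max A' 0), by positivity, ?_⟩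
  intro K _ _ hK m hm z hz S hS u Q hQ
  set A := max A' 0 with hA
  have hA0 : 0 ≤ A := le_max_right _ _
  have hQ0 : 0 ≤ Q := le_trans (Finset.sum_nonneg fun v _ => Finset.sum_nonneg fun p _ =>
    abs_nonneg _) hQ
  have hfr : (0 : ℝ) < finrank ℚ K := by exact_mod_cast finrank_pos
  have hfrD : (finrank ℚ K : ℝ) ≤ D := by exact_mod_cast hK
  set x' : Fin m → K := fun i => xx z i.succ.succ with hx'
  have hpts : ∀ p, NF.pts x' p = xx z (ei p) := by
    rintro (_ | _ | i)
    · exact xx_zero.symm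
    · exact (xx_one hz).symm
    · rfl
  have hinj := xx_inj hz
  have h1 := hA' K hK (Fin m) (by simpa using hm) x'
    (fun i k h => by
      have := hinj h
      simpa using this)
    (fun i h => by
      have h2 : xx z i.succ.succ = xx z 0 := by rw [xx_zero]; exact h
      exact absurd (hinj h2) (Fin.succ_ne_zero _))
    (fun i h => by
      have h2 : xx z i.succ.succ = xx z 1 := by rw [xx_one hz]; exact h
      have h3 := hinj h2
      have h4 : (1 : Fin (m + 2)) = (0 : Fin (m + 1)).succ := rfl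
      rw [h4] at h3
      exact absurd (Fin.succ_injective _ h3) (Fin.succ_ne_zero _))
  set F : FinitePlace K → ℝ := fun w => if w (M₀ : K) = 1 then
    ⨆ p : Option (Option (Fin m)) × Option (Option (Fin m)),
      |Real.log (w (NF.pts x' p.1 - NF.pts x' p.2))| else 0 with hF
  have hFS : ∑ᶠ w, F w ≤ 6 * Q := by
    have hsub : Function.support F ⊆
        ((S.filter (fun v => v.val (M₀ : K) = 1) : Finset (FinitePlace K)) :
          Set (FinitePlace K)) := by
      intro w hw
      by_contra hwS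
      apply hw
      simp only [hF]
      split_ifs with h2
      · have hwS' : w ∉ S := fun h => hwS (Finset.mem_coe.2 (Finset.mem_filter.2 ⟨h, h2⟩))
        have h3 : ∀ p : Option (Option (Fin m)) × Option (Option (Fin m)),
            |Real.log (w (NF.pts x' p.1 - NF.pts x' p.2))| = 0 := by
          intro p
          rw [hpts, hpts]
          by_cases hp : ei p.1 = ei p.2
          · rw [hp, sub_self]; simp
          · have h4 := log_xx hz w.val hp
            rw [log_kk hz w.val] at h4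
            have e : ∀ i k, i ≠ k → Real.log (w.val (wd (z i) (z k))) = 0 := fun i k hik => by
              rw [hS w hwS' i k hik, Real.log_one]
            rw [e _ _ (Fin.succ_ne_zero _), e _ _ (Fin.succ_ne_zero _),
              e _ _ (Fin.succ_ne_zero _), e _ _ (Fin.succ_ne_zero _),
              e _ _ (fun h => hp (Fin.succ_injective _ h)),
              e _ _ (fun h => by
                have := Fin.succ_injective _ h
                exact absurd this (by simp))] at h4
            have h5 : Real.log (w (xx z (ei p.1) - xx z (ei p.2))) =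
              Real.log (w.val (xx z (ei p.1) - xx z (ei p.2))) := rfl
            rw [h5, h4]; simp
        simp [h3]
      · rfl
    rw [finsum_eq_sum_of_support_subset _ hsub]
    have h4 : ∀ w ∈ S.filter (fun v => v.val (M₀ : K) = 1), F w ≤
        6 * ∑ p ∈ (univ : Finset (Fin (m + 3))).offDiag,
          |u w p.1 + u w p.2 - Real.log (w.val (wd (z p.1) (z p.2)))| := by
      intro w hw
      have h2 : w (M₀ : K) = 1 := (Finset.mem_filter.1 hw).2
      simp only [hF]
      rw [if_pos h2]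
      refine ciSup_le fun p => ?_
      rw [hpts, hpts]
      by_cases hp : ei p.1 = ei p.2
      · rw [hp, sub_self]
        simp only [map_zero, Real.log_zero, abs_zero]
        positivity
      · exact log_xx_le hz w.val (u w) hp
    refine (Finset.sum_le_sum h4).trans ?_
    rw [← Finset.mul_sum]
    exact mul_le_mul_of_nonneg_left hQ (by norm_num)
  have hC0 : (0 : ℝ) ≤ C := Nat.cast_nonneg _
  have hD0 : (0 : ℝ) ≤ D := Nat.cast_nonneg _
  have hB : ∀ a, logHeight₁ (xx z a) ≤ 6 * C * Q + D * A := by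
    intro a
    have hB0 : 0 ≤ 6 * C * Q + D * A := by positivity
    induction a using Fin.cases with
    | zero => rw [xx_zero, logHeight₁_zero]; exact hB0
    | succ a =>
      induction a using Fin.cases with
      | zero =>
        have h2 : xx z (0 : Fin (m + 1)).succ = 1 := xx_one hz
        rw [h2, logHeight₁_one]; exact hB0
      | succ i =>
        have h2 := h1 i
        change absLogHeight₁ (xx z i.succ.succ) ≤ C * ((finrank ℚ K : ℝ)⁻¹ * ∑ᶠ w, F w) + A' at h2
        rw [logHeight₁_abs]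
        have h3 : absLogHeight₁ (xx z i.succ.succ) ≤ C * ((finrank ℚ K : ℝ)⁻¹ * (6 * Q)) + A := by
          refine h2.trans (add_le_add ?_ (le_max_left _ _))
          gcongr
        calc (finrank ℚ K : ℝ) * absLogHeight₁ (xx z i.succ.succ)
            ≤ finrank ℚ K * (C * ((finrank ℚ K : ℝ)⁻¹ * (6 * Q)) + A) := by gcongr
          _ = 6 * C * Q + finrank ℚ K * A := by field_simp
          _ ≤ 6 * C * Q + D * A := by gcongr
  set B := 6 * C * Q + D * A with hBdef
  have hB0 : 0 ≤ B := by positivity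
  refine ⟨fun a => (hB a).trans ?_, ?_⟩
  · have h2 : 0 ≤ C * Q := by positivity
    have h3 : 0 ≤ D * A := by positivity
    rw [hBdef]
    nlinarith
  · refine ⟨fun v a => Real.log (v (wd (z a.succ) (z 0))) - Real.log (v (kk z)) / 2, fun S₂ => ?_⟩
    have h2 : ∀ (v : AbsoluteValue K ℝ), ∀ p ∈ (univ : Finset (Fin (m + 2))).offDiag,
        |(Real.log (v (wd (z p.1.succ) (z 0))) - Real.log (v (kk z)) / 2) +
          (Real.log (v (wd (z p.2.succ) (z 0))) - Real.log (v (kk z)) / 2) -
          Real.log (v (wd (z p.1.succ) (z p.2.succ)))| =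
        |Real.log (v (xx z p.1 - xx z p.2))| := by
      intro v p hp
      rw [log_xx hz v (Finset.mem_offDiag.1 hp).2.2, ← abs_neg]
      congr 1
      ring
    have h3 : ∀ p ∈ (univ : Finset (Fin (m + 2))).offDiag,
        ∑ v : InfinitePlace K, (v.mult : ℝ) * |Real.log (v.val (xx z p.1 - xx z p.2))| +
          ∑ v ∈ S₂, |Real.log (v.val (xx z p.1 - xx z p.2))| ≤ 2 * (D + 2 * B) := by
      intro p hp
      have hne : xx z p.1 - xx z p.2 ≠ 0 := sub_ne_zero.2 fun h =>
        (Finset.mem_offDiag.1 hp).2.2 (hinj h)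
      refine (abs_log_sum_le hne S₂).trans ?_
      have h4 := NF.ht_sub (xx z p.1) (xx z p.2)
      unfold NF.ht at h4
      have h5 : logHeight₁ (xx z p.1 - xx z p.2) ≤ finrank ℚ K * Real.log 2 +
          logHeight₁ (xx z p.1) + logHeight₁ (xx z p.2) := by
        rw [div_le_iff₀ hfr] at h4
        refine h4.trans (le_of_eq ?_)
        field_simp
      have h6 := hB p.1
      have h7 := hB p.2
      have h8 : (finrank ℚ K : ℝ) * Real.log 2 ≤ D * 1 :=
        mul_le_mul hfrD (by have := Real.log_two_lt_d9; linarith) (Real.log_nonneg (by norm_num)) hD0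
      linarith
    have h4 : ∑ v : InfinitePlace K, (v.mult : ℝ) * ∑ p ∈ (univ : Finset (Fin (m + 2))).offDiag,
          |Real.log (v.val (xx z p.1 - xx z p.2))| +
        ∑ v ∈ S₂, ∑ p ∈ (univ : Finset (Fin (m + 2))).offDiag,
          |Real.log (v.val (xx z p.1 - xx z p.2))| =
        ∑ p ∈ (univ : Finset (Fin (m + 2))).offDiag,
        (∑ v : InfinitePlace K, (v.mult : ℝ) * |Real.log (v.val (xx z p.1 - xx z p.2))| +
          ∑ v ∈ S₂, |Real.log (v.val (xx z p.1 - xx z p.2))|) := by
      rw [Finset.sum_add_distrib, Finset.sum_comm (s := S₂)]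
      congr 1
      rw [Finset.sum_comm]
      refine Finset.sum_congr rfl fun v _ => ?_
      rw [Finset.mul_sum]
    have h5 := Finset.sum_le_card_nsmul _ _ _ h3
    rw [nsmul_eq_mul] at h5
    have h6 : (((univ : Finset (Fin (m + 2))).offDiag.card : ℕ) : ℝ) ≤ ((m : ℝ) + 2) ^ 2 := by
      rw [Finset.offDiag_card, Finset.card_univ, Fintype.card_fin]
      have : (m + 2) * (m + 2) - (m + 2) ≤ (m + 2) ^ 2 := by
        rw [sq]; exact Nat.sub_le _ _
      exact_mod_cast this
    have e1 : ∀ v : AbsoluteValue K ℝ, ∑ p ∈ (univ : Finset (Fin (m + 2))).offDiag,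
        |(Real.log (v (wd (z p.1.succ) (z 0))) - Real.log (v (kk z)) / 2) +
          (Real.log (v (wd (z p.2.succ) (z 0))) - Real.log (v (kk z)) / 2) -
          Real.log (v (wd (z p.1.succ) (z p.2.succ)))| =
        ∑ p ∈ (univ : Finset (Fin (m + 2))).offDiag, |Real.log (v (xx z p.1 - xx z p.2))| :=
      fun v => Finset.sum_congr rfl (h2 v)
    simp only [e1]
    rw [h4]
    refine h5.trans ?_
    have h7 : 2 * ((D : ℝ) + 2 * B) ≤ 24 * C * Q + (2 * D + 4 * (D * A)) := by
      rw [hBdef]; nlinarith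
    exact mul_le_mul h6 h7 (by positivity) (by positivity)

end TH951.FE
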