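import Mathlib
import Pool.Agent.TH951.FE.NFC
import Pool.Agent.TH951.FE.Comb
import Pool.Agent.H951R3.PB.F4

/-! The main inequality, in abstract form. -/

set_option autoImplicit false

open Height NumberField Module Finset Pool.Agent.H951R3.PB

namespace TH951.FE

universe u

/-- the number of places dividing an integer -/
theorem card_div {K : Type u} [Field K] [NumberField K] {D : ℕ} (hK : finrank ℚ K ≤ D) {M₀ : ℕ}
    (hM₀ : M₀ ≠ 0) (T : Finset (FinitePlace K)) (hT : ∀ v ∈ T, v.val (M₀ : K) ≠ 1) :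
    (T.card : ℝ) ≤ D * Real.log M₀ / Real.log 2 := by
  classical
  have h0 : (M₀ : K) ≠ 0 := by exact_mod_cast hM₀
  have hfin := F4_finite_ne h0
  set F := hfin.toFinset with hF
  have hprod := F4_product h0 F (fun v hv => by
    by_contra h
    exact hv (by rw [hF, Set.Finite.mem_toFinset]; exact h))
  have hinf : ∑ v : InfinitePlace K, (v.mult : ℝ) * Real.log (v.val (M₀ : K)) ≤
      D * Real.log M₀ := by
    have h1 : ∀ v : InfinitePlace K, v.val (M₀ : K) = M₀ := by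
      intro v
      have h2 : v (M₀ : K) = M₀ := by
        rw [← InfinitePlace.norm_embedding_eq, map_natCast, Complex.norm_natCast]
      exact h2
    simp only [h1]
    rw [← Finset.sum_mul]
    have h2 : ∑ v : InfinitePlace K, (v.mult : ℝ) = finrank ℚ K := by
      rw [← InfinitePlace.sum_mult_eq]; push_cast; rfl
    rw [h2]
    have h3 : (finrank ℚ K : ℝ) ≤ D := by exact_mod_cast hK
    exact mul_le_mul_of_nonneg_right h3 (Real.log_natCast_nonneg _)
  have hl2 : 0 < Real.log 2 := Real.log_pos (by norm_num)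
  have hv : ∀ v ∈ F, Real.log (v.val (M₀ : K)) ≤ -Real.log 2 := by
    intro v hv
    have h1 : v.val (M₀ : K) ≠ 1 := by
      rw [hF, Set.Finite.mem_toFinset] at hv; exact hv
    obtain ⟨k, hk⟩ := NF.Nm_pow v h0
    have hN : (1 : ℝ) < NF.Nm v := by exact_mod_cast NF.one_lt_Nm v
    have hN2 : (2 : ℝ) ≤ NF.Nm v := by exact_mod_cast NF.one_lt_Nm v
    have hle : v (M₀ : K) ≤ 1 := NF.natCast_le_one v M₀
    have hk' : v.val (M₀ : K) = (NF.Nm v : ℝ) ^ k := hk
    have hk0 : k < 0 := by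
      by_contra hcon
      push Not at hcon
      have h2 : (1 : ℝ) ≤ (NF.Nm v : ℝ) ^ k := one_le_zpow₀ hN.le hcon
      rw [← hk] at h2
      exact h1 (le_antisymm hle h2)
    rw [hk', Real.log_zpow]
    have h3 : Real.log 2 ≤ Real.log (NF.Nm v) := Real.log_le_log (by norm_num) hN2
    have h4 : (k : ℝ) ≤ -1 := by exact_mod_cast (by omega : k ≤ -1)
    nlinarith
  have hTF : T ⊆ F := fun v hvT => by
    rw [hF, Set.Finite.mem_toFinset]; exact hT v hvT
  have h5 : (T.card : ℝ) * Real.log 2 ≤ D * Real.log M₀ := by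
    have h6 : ∑ v ∈ F, Real.log (v.val (M₀ : K)) ≤ -(F.card * Real.log 2) := by
      refine (Finset.sum_le_card_nsmul _ _ _ hv).trans (le_of_eq ?_)
      rw [nsmul_eq_mul]; ring
    have h7 : (T.card : ℝ) ≤ F.card := by exact_mod_cast Finset.card_le_card hTF
    nlinarith
  rw [le_div_iff₀ hl2]
  exact h5

theorem core_abs (D M : ℕ) (c B : ℝ) (hc : 0 < c) (hB : 0 ≤ B) :
    ∃ (m : ℕ) (l C : ℝ), 0 < l ∧ 0 < C ∧ ∀ M₀ : ℕ, M₀ ≠ 0 → ∃ A : ℝ, 0 ≤ A ∧
    ∀ (K : Type u) [Field K] [NumberField K], finrank ℚ K ≤ D → ∀ (N : ℕ), m + 3 ≤ N →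
    ∀ y : Fin N → (Fin 2 → K), (∀ i k, i ≠ k → wd (y i) (y k) ≠ 0) →
    ∀ (S : Finset (FinitePlace K)),
      (∀ v : FinitePlace K, v ∉ S → ∀ i k, i ≠ k → v.val (wd (y i) (y k)) = 1) →
    ∀ (uI : InfinitePlace K → Fin N → ℝ) (uF : FinitePlace K → Fin N → ℝ)
      (sI : InfinitePlace K → ℝ) (sF r : FinitePlace K → ℝ) (ε : ℝ),
      (∀ v, 1 ≤ sI v) → (∀ v, 1 ≤ sF v) → (∀ v, 0 ≤ r v) →
      (∀ v ∈ S, v.val (M₀ : K) = 1 → ∀ a b, a ≠ b →
        -r v ≤ uF v a + uF v b - Real.log (v.val (wd (y a) (y b)))) →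
      (∀ a b, a ≠ b →
        ∑ v : InfinitePlace K, (v.mult : ℝ) *
          (uI v a + uI v b - Real.log (v.val (wd (y a) (y b)))) +
        ∑ v ∈ S, (uF v a + uF v b - Real.log (v.val (wd (y a) (y b)))) ≤ ε) →
      (∀ v, -((N : ℝ) * (N - 1) * (l * sI v)) ≤ ∑ p ∈ (univ : Finset (Fin N)).offDiag,
        (uI v p.1 + uI v p.2 - Real.log (v.val (wd (y p.1) (y p.2))))) →
      (∀ v, -((N : ℝ) * (N - 1) * (l * sF v)) ≤ ∑ p ∈ (univ : Finset (Fin N)).offDiag,
        (uF v p.1 + uF v p.2 - Real.log (v.val (wd (y p.1) (y p.2))))) →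
      (∀ v, ∃ cell : Fin N → Fin M, ∀ a b, a ≠ b → cell a = cell b →
        c * sI v - B ≤ uI v a + uI v b - Real.log (v.val (wd (y a) (y b)))) →
      (∀ v, ∃ cell : Fin N → Fin M, ∀ a b, a ≠ b → cell a = cell b →
        c * sF v - B ≤ uF v a + uF v b - Real.log (v.val (wd (y a) (y b)))) →
      (∀ v, ∀ a b, a ≠ b → -(B * sI v) ≤ uI v a + uI v b - Real.log (v.val (wd (y a) (y b)))) →
      (∀ v, ∀ a b, a ≠ b → -(B * sF v) ≤ uF v a + uF v b - Real.log (v.val (wd (y a) (y b)))) →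
      ∑ v : InfinitePlace K, (v.mult : ℝ) * sI v +
        ∑ v ∈ S.filter (fun v => v.val (M₀ : K) ≠ 1), sF v ≤
      C * (ε + 2 * ∑ v ∈ S.filter (fun v => v.val (M₀ : K) = 1), r v) + A := by
  classical
  obtain ⟨N₀, C₀, hC₀, hcore⟩ := nf_core.{u} D
  obtain ⟨m₁, hm₁⟩ := exists_nat_ge (4 * M * (c + 2 * B) / c)
  set m := max N₀ m₁ with hm
  have hmN₀ : N₀ ≤ m := le_max_left _ _
  have hmm : 2 * M * (c + 2 * B) ≤ c / 2 * ((m : ℝ) + 1) := by
    have h1 : (m₁ : ℝ) ≤ m := by exact_mod_cast le_max_right _ _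
    have h2 : 4 * M * (c + 2 * B) ≤ m * c := (div_le_iff₀ hc).1 (hm₁.trans h1)
    nlinarith
  set κ : ℝ := 2 * ((m : ℝ) + 2) ^ 2 * C₀ * (((m : ℝ) + 3) * (m + 2)) with hκ
  have hκ0 : 0 ≤ κ := by positivity
  refine ⟨m, c / (4 * (κ + 1)), 4 * (1 + κ) / c, by positivity, by positivity, ?_⟩
  intro M₀ hM₀
  obtain ⟨A₁, hA₁, hcore⟩ := hcore M₀ hM₀
  have hlM : 0 ≤ Real.log M₀ := Real.log_natCast_nonneg _
  have hl2 : 0 < Real.log 2 := Real.log_pos (by norm_num)
  refine ⟨4 / c * (B * (D + D * Real.log M₀ / Real.log 2) + 2 * ((m : ℝ) + 2) ^ 2 * A₁),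
    by positivity, ?_⟩
  intro K _ _ hK N hN y hy S hS uI uF sI sF r ε hsI hsF hr0 hr hglob hlossI hlossF hgainI hgainF
    hlowI hlowF
  set l : ℝ := c / (4 * (κ + 1)) with hl
  set SJ := S.filter (fun v => v.val (M₀ : K) ≠ 1) with hSJ
  set SO := S.filter (fun v => v.val (M₀ : K) = 1) with hSO
  set R := ∑ v ∈ SO, r v with hR
  set FJ := ∑ v : InfinitePlace K, (v.mult : ℝ) * sI v + ∑ v ∈ SJ, sF v with hFJ
  let GI : InfinitePlace K → Fin N → Fin N → ℝ := fun v a b =>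
    uI v a + uI v b - Real.log (v.val (wd (y a) (y b)))
  let GF : FinitePlace K → Fin N → Fin N → ℝ := fun v a b =>
    uF v a + uF v b - Real.log (v.val (wd (y a) (y b)))
  let GJ : Fin N → Fin N → ℝ := fun a b =>
    ∑ v : InfinitePlace K, (v.mult : ℝ) * GI v a b + ∑ v ∈ SJ, GF v a b
  have hsplit : ∀ f : FinitePlace K → ℝ, ∑ v ∈ S, f v = ∑ v ∈ SJ, f v + ∑ v ∈ SO, f v := by
    intro f
    rw [hSJ, hSO, add_comm]
    exact (Finset.sum_filter_add_sum_filter_not S _ f).symm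
  have hR0 : 0 ≤ R := Finset.sum_nonneg fun v _ => hr0 v
  have hmult : ∀ v : InfinitePlace K, (0 : ℝ) ≤ v.mult := fun v => Nat.cast_nonneg _
  have hGO : ∀ a b, a ≠ b → -R ≤ ∑ v ∈ SO, GF v a b := by
    intro a b hab
    rw [hR, ← Finset.sum_neg_distrib]
    refine Finset.sum_le_sum fun v hv => ?_
    exact hr v (Finset.mem_filter.1 hv).1 (Finset.mem_filter.1 hv).2 a b hab
  have hGJ : ∀ a b, a ≠ b → GJ a b ≤ ε + R := by
    intro a b hab
    have h1 := hglob a b hab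
    rw [hsplit] at h1
    have h2 := hGO a b hab
    change ∑ v : InfinitePlace K, (v.mult : ℝ) * GI v a b + (∑ v ∈ SJ, GF v a b +
      ∑ v ∈ SO, GF v a b) ≤ ε at h1
    simp only [GJ]
    linarith
  -- the cost of a pair
  let cost : Fin N → Fin N → ℝ := fun a b => ∑ v ∈ SO, |GF v a b|
  have hcost : ∀ a b, a ≠ b → cost a b ≤ ε + 2 * R - GJ a b := by
    intro a b hab
    have h1 := hglob a b hab
    rw [hsplit] at h1
    change ∑ v : InfinitePlace K, (v.mult : ℝ) * GI v a b + (∑ v ∈ SJ, GF v a b +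
      ∑ v ∈ SO, GF v a b) ≤ ε at h1
    have h2 : cost a b ≤ ∑ v ∈ SO, (GF v a b + 2 * r v) := by
      refine Finset.sum_le_sum fun v hv => ?_
      have h3 := hr v (Finset.mem_filter.1 hv).1 (Finset.mem_filter.1 hv).2 a b hab
      change -r v ≤ GF v a b at h3
      rw [abs_le]
      constructor <;> linarith [hr0 v]
    rw [Finset.sum_add_distrib, ← Finset.mul_sum] at h2
    simp only [GJ]
    linarith
  have hNr : (0 : ℝ) < N := by
    have : 0 < N := by omega
    exact_mod_cast this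
  have hN1 : (0 : ℝ) < (N : ℝ) - 1 := by
    have : (1 : ℝ) < N := by exact_mod_cast (by omega : 1 < N)
    linarith
  have hoffN : (((univ : Finset (Fin N)).offDiag.card : ℕ) : ℝ) = (N : ℝ) * (N - 1) := by
    rw [card_off]; simp
  have hGJsum : -((N : ℝ) * (N - 1) * (l * FJ)) ≤
      ∑ p ∈ (univ : Finset (Fin N)).offDiag, GJ p.1 p.2 := by
    simp only [GJ]
    rw [Finset.sum_add_distrib, Finset.sum_comm, Finset.sum_comm (t := SJ)]
    have h1 : ∀ v : InfinitePlace K, (v.mult : ℝ) * -((N : ℝ) * (N - 1) * (l * sI v)) ≤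
        ∑ p ∈ (univ : Finset (Fin N)).offDiag, (v.mult : ℝ) * GI v p.1 p.2 := by
      intro v
      rw [← Finset.mul_sum]
      exact mul_le_mul_of_nonneg_left (hlossI v) (hmult v)
    have h2 := Finset.sum_le_sum fun v (_ : v ∈ (univ : Finset (InfinitePlace K))) => h1 v
    have h3 := Finset.sum_le_sum fun v (_ : v ∈ SJ) => hlossF v
    have h4 : -((N : ℝ) * (N - 1) * (l * FJ)) =
        ∑ v : InfinitePlace K, (v.mult : ℝ) * -((N : ℝ) * (N - 1) * (l * sI v)) +
        ∑ v ∈ SJ, -((N : ℝ) * (N - 1) * (l * sF v)) := by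
      rw [hFJ, mul_add, mul_add, neg_add, Finset.mul_sum, Finset.mul_sum, Finset.mul_sum,
        Finset.mul_sum, ← Finset.sum_neg_distrib, ← Finset.sum_neg_distrib]
      congr 1
      refine Finset.sum_congr rfl fun v _ => ?_
      ring
    rw [h4]
    exact add_le_add h2 h3
  have hcsum : ∑ p ∈ (univ : Finset (Fin N)).offDiag, cost p.1 p.2 ≤
      (N : ℝ) * (N - 1) * (ε + 2 * R + l * FJ) := by
    have h1 : ∑ p ∈ (univ : Finset (Fin N)).offDiag, cost p.1 p.2 ≤
        ∑ p ∈ (univ : Finset (Fin N)).offDiag, (ε + 2 * R - GJ p.1 p.2) :=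
      Finset.sum_le_sum fun p hp => hcost _ _ (Finset.mem_offDiag.1 hp).2.2
    rw [Finset.sum_sub_distrib, Finset.sum_const, nsmul_eq_mul, hoffN] at h1
    linarith
  obtain ⟨z, hzinj, hz⟩ := avg (α := Fin N) (n := m + 3) (by simpa using hN)
    (by rw [Fintype.card_fin]; omega) cost
  rw [Fintype.card_fin] at hz
  set Q := ((m : ℝ) + 3) * (m + 2) * (ε + 2 * R + l * FJ) with hQdef
  have hQ : ∑ p ∈ (univ : Finset (Fin (m + 3))).offDiag, cost (z p.1) (z p.2) ≤ Q := by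
    have h1 : (N : ℝ) * (N - 1) * ∑ p ∈ (univ : Finset (Fin (m + 3))).offDiag,
        cost (z p.1) (z p.2) ≤ (N : ℝ) * (N - 1) * Q := by
      refine hz.trans ?_
      push_cast
      have h2 : (0 : ℝ) ≤ ((m : ℝ) + 3) * (m + 3 - 1) := by
        have : (0 : ℝ) ≤ m := Nat.cast_nonneg _
        have h3 : (0 : ℝ) ≤ (m : ℝ) + 3 - 1 := by linarith
        positivity
      refine (mul_le_mul_of_nonneg_left hcsum h2).trans (le_of_eq ?_)
      rw [hQdef]
      ring
    exact le_of_mul_le_mul_left h1 (by positivity)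
  have hyz : ∀ i k : Fin (m + 3), i ≠ k → z i ≠ z k := fun i k h h' => h (hzinj h')
  obtain ⟨-, t, ht⟩ := hcore K hK m hmN₀ (fun i => y (z i)) (fun i k h => hy _ _ (hyz i k h)) S
    (fun v hv i k h => hS v hv _ _ (hyz i k h)) (fun v i => uF v (z i)) Q (by
      rw [Finset.sum_comm]
      exact hQ)
  have ht := ht SJ
  let hh : AbsoluteValue K ℝ → ℝ := fun v => ∑ p ∈ (univ : Finset (Fin (m + 2))).offDiag,
    |t v p.1 + t v p.2 - Real.log (v (wd (y (z p.1.succ)) (y (z p.2.succ))))|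
  have hhh : ∀ v : AbsoluteValue K ℝ, 0 ≤ hh v := fun v =>
    Finset.sum_nonneg fun p _ => abs_nonneg _
  change ∑ v : InfinitePlace K, (v.mult : ℝ) * hh v.val + ∑ v ∈ SJ, hh v.val ≤
    ((m : ℝ) + 2) ^ 2 * (C₀ * Q + A₁) at ht
  -- the gain at one place
  have key : ∀ (v : AbsoluteValue K ℝ) (u : Fin N → ℝ) (s : ℝ), 1 ≤ s →
      (∃ cell : Fin N → Fin M, ∀ a b, a ≠ b → cell a = cell b →
        c * s - B ≤ u a + u b - Real.log (v (wd (y a) (y b)))) →
      (∀ a b, a ≠ b → -(B * s) ≤ u a + u b - Real.log (v (wd (y a) (y b)))) →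
      ((m : ℝ) + 2) * (m + 1) * (c / 2 * s - B - 2 * hh v) ≤
        ∑ p ∈ (univ : Finset (Fin (m + 2))).offDiag, (u (z p.1.succ) + u (z p.2.succ) -
          Real.log (v (wd (y (z p.1.succ)) (y (z p.2.succ))))) := by
    intro v u s hs hg hlw
    obtain ⟨cell, hcell⟩ := hg
    have hne : ∀ i k : Fin (m + 2), i ≠ k → z i.succ ≠ z k.succ := fun i k h =>
      hyz _ _ fun h' => h (Fin.succ_injective _ h')
    have h1 := local_gain (n := m + 2) (M := M)
      (fun i k => u (z i.succ) + u (z k.succ) - Real.log (v (wd (y (z i.succ)) (y (z k.succ)))))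
      (fun i => u (z i.succ) - t v i) (hh v) (c * s - B) (2 * B * s) (hhh v)
      (by nlinarith)
      (by
        intro i k hik
        have hmem : (i, k) ∈ (univ : Finset (Fin (m + 2))).offDiag :=
          Finset.mem_offDiag.2 ⟨mem_univ _, mem_univ _, hik⟩
        have h2 := Finset.single_le_sum (f := fun p : Fin (m + 2) × Fin (m + 2) =>
          |t v p.1 + t v p.2 - Real.log (v (wd (y (z p.1.succ)) (y (z p.2.succ))))|)
          (fun p _ => abs_nonneg _) hmem
        refine le_trans (le_of_eq ?_) h2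
        congr 1
        ring)
      (fun i => cell (z i.succ)) (fun i k hik hc' => hcell _ _ (hne i k hik) hc')
      (fun i k hik => by
        have h2 := hlw _ _ (hne i k hik)
        have h3 : 0 ≤ B * s := mul_nonneg hB (by linarith)
        linarith)
    refine le_trans ?_ h1
    push_cast
    have hm0 : (0 : ℝ) ≤ m := Nat.cast_nonneg _
    have hM0 : (0 : ℝ) ≤ M := Nat.cast_nonneg _
    have h2 : 2 * (M : ℝ) * ((m : ℝ) + 2) * (c * s - B + 2 * B * s) ≤
        ((m : ℝ) + 2) * (c / 2 * ((m : ℝ) + 1) * s) := by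
      have h3 : 2 * (M : ℝ) * (c * s - B + 2 * B * s) ≤ c / 2 * ((m : ℝ) + 1) * s := by
        have h4 : 2 * (M : ℝ) * (c * s - B + 2 * B * s) ≤ 2 * M * (c + 2 * B) * s := by
          have : 0 ≤ 2 * (M : ℝ) * B := by positivity
          nlinarith
        refine h4.trans ?_
        exact mul_le_mul_of_nonneg_right hmm (by linarith)
      calc 2 * (M : ℝ) * ((m : ℝ) + 2) * (c * s - B + 2 * B * s)
          = ((m : ℝ) + 2) * (2 * (M : ℝ) * (c * s - B + 2 * B * s)) := by ring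
        _ ≤ _ := mul_le_mul_of_nonneg_left h3 (by positivity)
    nlinarith
  have hI := fun v : InfinitePlace K => key v.val (uI v) (sI v) (hsI v) (hgainI v) (hlowI v)
  have hF := fun v : FinitePlace K => key v.val (uF v) (sF v) (hsF v) (hgainF v) (hlowF v)
  set Wt : ℝ := ∑ v : InfinitePlace K, (v.mult : ℝ) + SJ.card with hWt
  set H : ℝ := ∑ v : InfinitePlace K, (v.mult : ℝ) * hh v.val + ∑ v ∈ SJ, hh v.val with hH
  have hsum : ((m : ℝ) + 2) * (m + 1) * (c / 2 * FJ - B * Wt - 2 * H) ≤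
      ∑ p ∈ (univ : Finset (Fin (m + 2))).offDiag, GJ (z p.1.succ) (z p.2.succ) := by
    have h1 := Finset.sum_le_sum fun v (_ : v ∈ (univ : Finset (InfinitePlace K))) =>
      mul_le_mul_of_nonneg_left (hI v) (hmult v)
    have h2 := Finset.sum_le_sum fun v (_ : v ∈ SJ) => hF v
    have h3 := add_le_add h1 h2
    refine le_trans (le_of_eq ?_) (h3.trans (le_of_eq ?_))
    · have e1 : ∀ v : InfinitePlace K, (v.mult : ℝ) *
          (((m : ℝ) + 2) * (m + 1) * (c / 2 * sI v - B - 2 * hh v.val)) =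
          ((m : ℝ) + 2) * (m + 1) * (c / 2) * ((v.mult : ℝ) * sI v) -
          ((m : ℝ) + 2) * (m + 1) * B * (v.mult : ℝ) -
          ((m : ℝ) + 2) * (m + 1) * 2 * ((v.mult : ℝ) * hh v.val) := fun v => by ring
      have e2 : ∀ v : FinitePlace K, ((m : ℝ) + 2) * (m + 1) * (c / 2 * sF v - B - 2 * hh v.val) =
          ((m : ℝ) + 2) * (m + 1) * (c / 2) * sF v - ((m : ℝ) + 2) * (m + 1) * B -
          ((m : ℝ) + 2) * (m + 1) * 2 * hh v.val := fun v => by ring
      rw [Finset.sum_congr rfl fun v _ => e1 v, Finset.sum_congr rfl fun v _ => e2 v]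
      simp only [Finset.sum_sub_distrib, ← Finset.mul_sum, Finset.sum_const, nsmul_eq_mul]
      rw [hFJ, hWt, hH]
      ring
    · simp only [GJ, Finset.mul_sum]
      conv_rhs => rw [Finset.sum_add_distrib, Finset.sum_comm, Finset.sum_comm (t := SJ)]
  have hub : ∑ p ∈ (univ : Finset (Fin (m + 2))).offDiag, GJ (z p.1.succ) (z p.2.succ) ≤
      ((m : ℝ) + 2) * (m + 1) * (ε + R) := by
    refine (Finset.sum_le_card_nsmul _ _ (ε + R) fun p hp => hGJ _ _ (hyz _ _ fun h' =>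
      (Finset.mem_offDiag.1 hp).2.2 (Fin.succ_injective _ h'))).trans (le_of_eq ?_)
    rw [nsmul_eq_mul, card_off]
    simp only [Fintype.card_fin]
    push_cast
    ring
  have hm0 : (0 : ℝ) ≤ m := Nat.cast_nonneg _
  have hfin1 : c / 2 * FJ - B * Wt - 2 * H ≤ ε + R :=
    le_of_mul_le_mul_left (hsum.trans hub) (by positivity)
  have hWtle : Wt ≤ D + D * Real.log M₀ / Real.log 2 := by
    rw [hWt]
    refine add_le_add ?_ (card_div hK hM₀ SJ fun v hv => (Finset.mem_filter.1 hv).2)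
    have h2 : ∑ v : InfinitePlace K, (v.mult : ℝ) = finrank ℚ K := by
      rw [← InfinitePlace.sum_mult_eq]; push_cast; rfl
    rw [h2]
    exact_mod_cast hK
  set W₀ : ℝ := D + D * Real.log M₀ / Real.log 2 with hW₀
  have h1 : c / 2 * FJ ≤ ε + R + B * W₀ + 2 * (((m : ℝ) + 2) ^ 2 * (C₀ * Q + A₁)) := by
    have := mul_le_mul_of_nonneg_left hWtle hB
    linarith
  have h2 : 2 * (((m : ℝ) + 2) ^ 2 * (C₀ * Q + A₁)) =
      κ * (ε + 2 * R + l * FJ) + 2 * ((m : ℝ) + 2) ^ 2 * A₁ := by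
    rw [hκ, hQdef]; ring
  have hFJ0 : 0 ≤ FJ := by
    rw [hFJ]
    refine add_nonneg (Finset.sum_nonneg fun v _ => mul_nonneg (hmult v) ?_)
      (Finset.sum_nonneg fun v _ => ?_)
    · linarith [hsI v]
    · linarith [hsF v]
  have h3 : κ * (l * FJ) ≤ c / 4 * FJ := by
    have h4 : κ * l ≤ c / 4 := by
      rw [hl, mul_div_assoc', div_le_div_iff₀ (by positivity) (by norm_num)]
      nlinarith
    rw [← mul_assoc]
    exact mul_le_mul_of_nonneg_right h4 hFJ0
  have h4 : c / 4 * FJ ≤ (1 + κ) * (ε + 2 * R) + B * W₀ + 2 * ((m : ℝ) + 2) ^ 2 * A₁ := by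
    rw [h2] at h1
    nlinarith
  have h5 : FJ = 4 / c * (c / 4 * FJ) := by field_simp
  rw [h5]
  refine (mul_le_mul_of_nonneg_left h4 (by positivity)).trans (le_of_eq ?_)
  ring

end TH951.FE
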