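import Mathlib
import Pool.Agent.TH951.FE.Core
import Pool.Agent.H951R3.PB.F9
import Pool.Agent.H951R3.PB.D6

/-! The main inequality for rational maps with many points of small canonical height. -/

set_option autoImplicit false

open Height NumberField Module Finset Pool.Agent.H951R3.PB

namespace TH951.FE

universe u

theorem sum_off {n : ℕ} (g : Fin n → Fin n → ℝ) (hg : ∀ i k, g i k = g k i) :
    ∑ p ∈ (univ : Finset (Fin n)).offDiag, g p.1 p.2 = 2 * ∑ i, ∑ j ∈ Finset.Ioi i, g i j := by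
  classical
  have h1 : ∑ p ∈ (univ : Finset (Fin n)).offDiag, g p.1 p.2 =
      ∑ i, ∑ j, if i ≠ j then g i j else 0 := by
    rw [← Finset.sum_product', ← Finset.sum_filter]
    refine Finset.sum_congr ?_ fun _ _ => rfl
    ext p
    simp [Finset.mem_offDiag]
  have h2 : ∀ i, ∑ j ∈ Finset.Ioi i, g i j = ∑ j, if i < j then g i j else 0 := by
    intro i
    rw [← Finset.sum_filter]
    refine Finset.sum_congr ?_ fun _ _ => rfl
    ext j; simp
  have h3 : ∑ i, ∑ j ∈ Finset.Ioi i, g i j = ∑ i, ∑ j, if j < i then g i j else 0 := by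
    rw [Finset.sum_congr rfl fun i _ => h2 i, Finset.sum_comm]
    refine Finset.sum_congr rfl fun i _ => Finset.sum_congr rfl fun j _ => ?_
    rw [hg j i]
  rw [two_mul]
  conv_rhs => rw [h3]
  conv_rhs => lhs; rw [← h3]
  rw [Finset.sum_congr rfl fun i _ => h2 i, h1, ← Finset.sum_add_distrib]
  refine Finset.sum_congr rfl fun i _ => ?_
  rw [← Finset.sum_add_distrib]
  refine Finset.sum_congr rfl fun j _ => ?_
  rcases lt_trichotomy i j with h | h | h
  · rw [if_pos h.ne, if_pos h, if_neg h.not_gt, add_zero]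
  · subst h; simp
  · rw [if_pos h.ne', if_neg h.not_gt, if_pos h, zero_add]

theorem wd_le_two {L : Type u} [Field L] (w : AbsoluteValue L ℝ) (x y : Fin 2 → L) :
    w (wd x y) ≤ 2 * (nrm w x * nrm w y) := by
  have h0 : ∀ i (z : Fin 2 → L), w (z i) ≤ nrm w z := fun i z => by
    fin_cases i
    · exact le_max_left _ _
    · exact le_max_right _ _
  have hn : ∀ z : Fin 2 → L, 0 ≤ nrm w z := fun z => (w.nonneg _).trans (h0 0 z)
  have h1 : w (wd x y) ≤ w (x 0 * y 1) + w (x 1 * y 0) := by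
    unfold wd
    rw [sub_eq_add_neg]
    refine (w.add_le _ _).trans (le_of_eq ?_)
    rw [AbsoluteValue.map_neg]
  rw [map_mul, map_mul] at h1
  have h2 : w (x 0) * w (y 1) ≤ nrm w x * nrm w y :=
    mul_le_mul (h0 _ _) (h0 _ _) (w.nonneg _) (hn _)
  have h3 : w (x 1) * w (y 0) ≤ nrm w x * nrm w y :=
    mul_le_mul (h0 _ _) (h0 _ _) (w.nonneg _) (hn _)
  linarith

theorem lam_ge {L : Type u} [Field L] (w : AbsoluteValue L ℝ) {x y : Fin 2 → L}
    (hxy : wd x y ≠ 0) : -Real.log 2 ≤ lam w x y := by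
  have hx : x ≠ 0 := by rintro rfl; simp [wd] at hxy
  have hy : y ≠ 0 := by rintro rfl; simp [wd] at hxy
  have h1 := wd_le_two w x y
  have hnx := F4_nrm_pos w hx
  have hny := F4_nrm_pos w hy
  have h2 := Real.log_le_log (w.pos hxy) h1
  rw [Real.log_mul (by norm_num) (mul_pos hnx hny).ne', Real.log_mul hnx.ne' hny.ne'] at h2
  unfold lam
  linarith

theorem gg_comm {L : Type u} [Field L] (w : AbsoluteValue L ℝ) (F : (Fin 2 → L) → Fin 2 → L)
    (d : ℕ) (r : ℝ) (x y : Fin 2 → L) : gg w F d r x y = gg w F d r y x := by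
  have h1 : wd y x = -wd x y := by unfold wd; ring
  unfold gg
  rw [h1, AbsoluteValue.map_neg]
  ring

section

variable {K : Type u} [Field K]

/-- the potential -/
noncomputable def pot (d : ℕ) (f : Fin 2 → MvPolynomial (Fin 2) K)
    (w : AbsoluteValue (AlgebraicClosure K) ℝ) (x : Fin 2 → K) : ℝ :=
  Gr w (ev (fL K f)) d (vL K x) + ta d (Real.log (w (rs (fL K f) d))) / 2

theorem pot_gg (d : ℕ) (f : Fin 2 → MvPolynomial (Fin 2) K)
    {v : AbsoluteValue K ℝ} {w : AbsoluteValue (AlgebraicClosure K) ℝ} (hvw : Ext v w)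
    (x y : Fin 2 → K) : pot d f w x + pot d f w y - Real.log (v (wd x y)) =
      gg w (ev (fL K f)) d (Real.log (w (rs (fL K f) d))) (vL K x) (vL K y) := by
  unfold pot gg
  rw [Pool.Agent.H951R3.PB.wd_vL, hvw]
  ring

end

/-- sizes over the infinite places and the places dividing `M₀` -/
noncomputable def big {K : Type u} [Field K] [NumberField K] (d : ℕ)
    (f : Fin 2 → MvPolynomial (Fin 2) K)
    (wi : InfinitePlace K → AbsoluteValue (AlgebraicClosure K) ℝ)
    (wf : FinitePlace K → AbsoluteValue (AlgebraicClosure K) ℝ) (T : Finset (FinitePlace K)) : ℝ :=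
  ∑ v : InfinitePlace K, (v.mult : ℝ) * (1 + max (msz d f (wi v)) 0) +
    ∑ v ∈ T, (1 + max (msz d f (wf v)) 0)

/-- all local facts used, for all absolute values of the algebraic closure -/
theorem local_facts (d : ℕ) (hd : 2 ≤ d) : ∃ (M : ℕ) (c B : ℝ), 0 < c ∧ 0 ≤ B ∧
    ∀ (K : Type u) [Field K] [NumberField K],
    ∀ f : Fin 2 → MvPolynomial (Fin 2) K, (∀ i, (f i).IsHomogeneous d) → rs f d ≠ 0 →
    ∀ (v : AbsoluteValue K ℝ) (w : AbsoluteValue (AlgebraicClosure K) ℝ), Ext v w →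
    (∀ (k : ℕ) (y : Fin (d ^ k) → Fin 2 → K), (∀ i j, i ≠ j → wd (y i) (y j) ≠ 0) →
      (∀ i, y i ≠ 0) →
      -((d : ℝ) ^ k * (2 * k * (B * (1 + max (msz d f w) 0)))) ≤
        ∑ p ∈ (univ : Finset (Fin (d ^ k))).offDiag,
          (pot d f w (y p.1) + pot d f w (y p.2) - Real.log (v (wd (y p.1) (y p.2))))) ∧
    (∃ cell : (Fin 2 → K) → Fin M, ∀ x y, wd x y ≠ 0 → cell x = cell y →
      c * (1 + max (msz d f w) 0) - B ≤ pot d f w x + pot d f w y - Real.log (v (wd x y))) ∧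
    (∀ x y, wd x y ≠ 0 →
      -(B * (1 + max (msz d f w) 0)) ≤ pot d f w x + pot d f w y - Real.log (v (wd x y))) := by
  classical
  obtain ⟨B1, hB1, hmmge⟩ := mm_ge.{u} d hd
  obtain ⟨M, c, B2, hc, hB2, hgain⟩ := gain.{u} d hd
  obtain ⟨B3, hB3, hloss⟩ := loss.{u} d hd
  obtain ⟨B4, hB4, hlow⟩ := gg_ge_lam.{u} d hd
  refine ⟨M, c, c * (1 + B1) + B2 + (1 + B3) + (1 + B4), hc, by positivity, ?_⟩
  set B := c * (1 + B1) + B2 + (1 + B3) + (1 + B4) with hB
  have e0 : 0 ≤ c * (1 + B1) := by positivity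
  intro K _ _ f hf h0 v w hvw
  have hrs : rs (fL K f) d = algebraMap K (AlgebraicClosure K) (rs f d) := rs_map _ f d
  have hrs0 : rs (fL K f) d ≠ 0 := by
    rw [hrs]
    exact (map_ne_zero_iff _ (algebraMap K (AlgebraicClosure K)).injective).2 h0
  have hfL : ∀ i, (fL K f i).IsHomogeneous d := fun i => (hf i).map _
  have hfib : Fib w (ev (fL K f)) d (Real.log (w (rs (fL K f) d))) :=
    fib_base w (by omega) hfL hrs0
  have hmm := hmmge _ w _ _ hfib
  change -B1 ≤ msz d f w at hmm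
  set μ := msz d f w with hμ
  have hμ0 : 0 ≤ max μ 0 := le_max_right _ _
  have hμ1 : μ ≤ max μ 0 := le_max_left _ _
  have hμ2 : max μ 0 ≤ μ + B1 := max_le (by linarith) (by linarith)
  refine ⟨?_, ?_, ?_⟩
  · intro k y hy hy0
    have h1 := hloss _ w (fL K f) hfL hrs0 k (fun j => vL K (y j)) (fun j => vL_ne (hy0 j))
      (fun a b hab => wd_vL_ne (hy a b hab))
    have h2 := sum_off (fun a b : Fin (d ^ k) =>
      gg w (ev (fL K f)) d (Real.log (w (rs (fL K f) d))) (vL K (y a)) (vL K (y b)))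
      (fun a b => gg_comm _ _ _ _ _ _)
    have h3 : ∑ p ∈ (univ : Finset (Fin (d ^ k))).offDiag,
        (pot d f w (y p.1) + pot d f w (y p.2) - Real.log (v (wd (y p.1) (y p.2)))) =
        ∑ p ∈ (univ : Finset (Fin (d ^ k))).offDiag,
        gg w (ev (fL K f)) d (Real.log (w (rs (fL K f) d))) (vL K (y p.1)) (vL K (y p.2)) :=
      Finset.sum_congr rfl fun p _ => pot_gg d f hvw _ _
    rw [h3, h2]
    have h4 : μ + B3 ≤ B * (1 + max μ 0) := by
      have h5 : μ + B3 ≤ (1 + B3) * (1 + max μ 0) := by nlinarith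
      refine h5.trans (mul_le_mul_of_nonneg_right ?_ (by linarith))
      rw [hB]; linarith
    have hd0 : (0 : ℝ) ≤ (d : ℝ) ^ k * (2 * k) := by positivity
    have h5 := mul_le_mul_of_nonneg_left h4 hd0
    change -((d : ℝ) ^ k * (k * (μ + B3))) ≤ _ at h1
    nlinarith
  · obtain ⟨cell, hcell⟩ := hgain _ w _ _ hfib
    refine ⟨fun x => cell (vL K x), fun x y hxy hc' => ?_⟩
    have h1 := hcell _ _ (wd_vL_ne hxy) hc'
    rw [pot_gg d f hvw]
    change c * μ - B2 ≤ _ at h1
    refine le_trans ?_ h1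
    have h2 : c * max μ 0 ≤ c * (μ + B1) := mul_le_mul_of_nonneg_left hμ2 hc.le
    rw [hB]
    nlinarith
  · intro x y hxy
    rw [pot_gg d f hvw]
    obtain ⟨a, b, hab, h1⟩ := hlow _ w _ _ hfib
    have h2 := h1 _ _ (wd_vL_ne hxy)
    refine le_trans ?_ h2
    have hxy' : wd (coo a b (vL K x)) (coo a b (vL K y)) ≠ 0 := by
      rw [Pool.Agent.H951R3.PB.E6.wd_coo hab]
      exact div_ne_zero (wd_vL_ne hxy) hab
    have h3 := lam_ge w hxy'
    have h4 : Real.log 2 ≤ 1 := by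
      have := Real.log_two_lt_d9; linarith
    change _ ≤ _ - B4 * (max μ 0 + 1)
    have h5 : (1 + B4) * (1 + max μ 0) ≤ B * (1 + max μ 0) :=
      mul_le_mul_of_nonneg_right (by rw [hB]; linarith) (by linarith)
    nlinarith

/-- a finite set of places outside which finitely many numbers are units -/
theorem exists_S {K : Type u} [Field K] [NumberField K] {n : ℕ} (y : Fin n → Fin 2 → K)
    (hy : ∀ i k, i ≠ k → wd (y i) (y k) ≠ 0) (T : Finset (FinitePlace K)) :
    ∃ S : Finset (FinitePlace K), T ⊆ S ∧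
      ∀ v : FinitePlace K, v ∉ S → ∀ i k, i ≠ k → v.val (wd (y i) (y k)) = 1 := by
  classical
  have hfin : (⋃ i : Fin n, ⋃ k : Fin n, {v : FinitePlace K | i ≠ k ∧
      v.val (wd (y i) (y k)) ≠ 1}).Finite := by
    refine Set.finite_iUnion fun i => Set.finite_iUnion fun k => ?_
    by_cases hik : i = k
    · refine Set.finite_empty.subset fun v hv => (hv.1 hik).elim
    · exact (F4_finite_ne (hy i k hik)).subset fun v hv => hv.2
  refine ⟨T ∪ hfin.toFinset, Finset.subset_union_left, fun v hv i k hik => ?_⟩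
  by_contra h
  apply hv
  rw [Finset.mem_union, Set.Finite.mem_toFinset, Set.mem_iUnion]
  exact Or.inr ⟨i, Set.mem_iUnion.2 ⟨k, hik, h⟩⟩

/-- the main inequality for rational maps -/
theorem dyn (d : ℕ) (hd : 2 ≤ d) (D : ℕ) : ∃ (N : ℕ) (η C : ℝ), 0 < η ∧ 0 < C ∧
    ∀ M₀ : ℕ, M₀ ≠ 0 → ∃ A : ℝ, 0 ≤ A ∧
    ∀ (K : Type u) [Field K] [NumberField K], finrank ℚ K ≤ D →
    ∀ f : Fin 2 → MvPolynomial (Fin 2) K, (∀ i, (f i).IsHomogeneous d) → rs f d ≠ 0 →
    ∀ (wi : InfinitePlace K → AbsoluteValue (AlgebraicClosure K) ℝ) (_ : ∀ v, Ext v.val (wi v))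
      (wf : FinitePlace K → AbsoluteValue (AlgebraicClosure K) ℝ) (_ : ∀ v, Ext v.val (wf v))
      (T : Finset (FinitePlace K)), (∀ v, v ∉ T → PotGoodAt (wf v) d f) →
    ∀ X : Finset (Fin 2 → K), N ≤ X.card → (∀ x ∈ X, x ≠ 0) →
      (∀ x ∈ X, ∀ y ∈ X, x ≠ y → wd x y ≠ 0) →
      (∀ x ∈ X, hcan d f x ≤ η * big d f wi wf (T.filter fun v => v.val (M₀ : K) ≠ 1)) →
      big d f wi wf (T.filter fun v => v.val (M₀ : K) ≠ 1) ≤
        C * ∑ v ∈ T.filter (fun v => v.val (M₀ : K) = 1), (1 + max (msz d f (wf v)) 0) + A := by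
  classical
  obtain ⟨M, c, B, hc, hB, hloc⟩ := local_facts.{u} d hd
  obtain ⟨m, l, C, hl, hC, hcore⟩ := core_abs.{u} D M c B hc hB
  -- the number of points
  obtain ⟨k, hk1, hk2⟩ : ∃ k : ℕ, m + 3 ≤ d ^ k ∧ 2 * k * B ≤ ((d : ℝ) ^ k - 1) * l := by
    have h1 : Filter.Tendsto (fun k : ℕ => (k : ℝ) / (2 : ℝ) ^ k) Filter.atTop (nhds 0) := by
      have := tendsto_pow_const_div_const_pow_of_one_lt 1 (show (1 : ℝ) < 2 by norm_num)
      simpa using this
    have h2 : Filter.Tendsto (fun k : ℕ => (1 : ℝ) / (2 : ℝ) ^ k) Filter.atTop (nhds 0) := by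
      have := tendsto_pow_const_div_const_pow_of_one_lt 0 (show (1 : ℝ) < 2 by norm_num)
      simpa using this
    have e1 := (h1.eventually (gt_mem_nhds (show (0 : ℝ) < l / (4 * (B + 1)) by positivity)))
    have e2 := (h2.eventually (gt_mem_nhds (show (0 : ℝ) < 1 / 2 by norm_num)))
    obtain ⟨k, ⟨hka, hkb⟩, hkc⟩ := ((e1.and e2).and (Filter.eventually_ge_atTop (m + 3))).exists
    have hp : (0 : ℝ) < 2 ^ k := by positivity
    have hle : (2 : ℝ) ^ k ≤ (d : ℝ) ^ k := by
      have : (2 : ℝ) ≤ d := by exact_mod_cast hd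
      gcongr
    refine ⟨k, ?_, ?_⟩
    · calc m + 3 ≤ k := hkc
        _ ≤ 2 ^ k := Nat.lt_two_pow_self.le
        _ ≤ d ^ k := Nat.pow_le_pow_left hd k
    · rw [div_lt_iff₀ hp] at hka hkb
      have h3 : (k : ℝ) * (4 * (B + 1)) ≤ l * 2 ^ k := by
        have h4 := mul_le_mul_of_nonneg_right hka.le (show (0 : ℝ) ≤ 4 * (B + 1) by positivity)
        refine h4.trans (le_of_eq ?_)
        field_simp
      have h4 : (2 : ℝ) ^ k / 2 ≤ (d : ℝ) ^ k - 1 := by linarith
      have h5 : (2 : ℝ) ^ k / 2 * l ≤ ((d : ℝ) ^ k - 1) * l := mul_le_mul_of_nonneg_right h4 hl.le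
      have hk0 : (0 : ℝ) ≤ k := Nat.cast_nonneg _
      nlinarith
  refine ⟨d ^ k, 1 / (4 * C), 4 * C * (B + 1), by positivity, by positivity, ?_⟩
  intro M₀ hM₀
  obtain ⟨A, hA, hcore⟩ := hcore M₀ hM₀
  refine ⟨2 * A, by positivity, ?_⟩
  intro K _ _ hK f hf h0 wi hwi wf hwf T hT X hXN hX0 hX hcanX
  obtain ⟨Y, hYX, hYc⟩ := Finset.exists_subset_card_eq hXN
  let e : Fin (d ^ k) ≃ Y := (Finset.equivFinOfCardEq hYc).symm
  let y : Fin (d ^ k) → Fin 2 → K := fun j => (e j : Fin 2 → K)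
  have hyX : ∀ j, y j ∈ X := fun j => hYX (e j).2
  have hyinj : Function.Injective y := fun a b h => e.injective (Subtype.ext h)
  have hy : ∀ i j, i ≠ j → wd (y i) (y j) ≠ 0 := fun i j hij =>
    hX _ (hyX i) _ (hyX j) fun h => hij (hyinj h)
  have hy0 : ∀ i, y i ≠ 0 := fun i => hX0 _ (hyX i)
  obtain ⟨S, hTS, hS⟩ := exists_S y hy T
  set FT := big d f wi wf (T.filter fun v => v.val (M₀ : K) ≠ 1) with hFT
  have hrs : rs (fL K f) d = algebraMap K (AlgebraicClosure K) (rs f d) := rs_map _ f d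
  have hrs0 : rs (fL K f) d ≠ 0 := by
    rw [hrs]
    exact (map_ne_zero_iff _ (algebraMap K (AlgebraicClosure K)).injective).2 h0
  have hlocI := fun v : InfinitePlace K => hloc K f hf h0 v.val (wi v) (hwi v)
  have hlocF := fun v : FinitePlace K => hloc K f hf h0 v.val (wf v) (hwf v)
  have hs1 : ∀ w, 1 ≤ 1 + max (msz d f w) 0 := fun w => by
    have : 0 ≤ max (msz d f w) 0 := le_max_right _ _
    linarith
  have hgood : ∀ v, v ∉ T → ∀ x z : Fin 2 → K, wd x z ≠ 0 →
      0 ≤ pot d f (wf v) x + pot d f (wf v) z - Real.log (v.val (wd x z)) := by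
    intro v hv x z hxz
    rw [pot_gg d f (hwf v)]
    exact potgood_gg hd hf hrs0 (wf v) (ext_na v _ (hwf v)) (hT v hv) (wd_vL_ne hxz)
  let r : FinitePlace K → ℝ := fun v => if v ∈ T then B * (1 + max (msz d f (wf v)) 0) else 0
  have hloss : ∀ s : ℝ, 1 ≤ s → -(((d ^ k : ℕ) : ℝ) * (((d ^ k : ℕ) : ℝ) - 1) * (l * s)) ≤
      -((d : ℝ) ^ k * (2 * k * (B * s))) := by
    intro s hs
    push_cast
    have h1 : (0 : ℝ) ≤ (d : ℝ) ^ k * s := by positivity
    have h2 := mul_le_mul_of_nonneg_left hk2 h1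
    nlinarith
  have key := hcore K hK (d ^ k) hk1 y hy S hS (fun v a => pot d f (wi v) (y a))
    (fun v a => pot d f (wf v) (y a)) (fun v => 1 + max (msz d f (wi v)) 0)
    (fun v => 1 + max (msz d f (wf v)) 0) r (2 * (1 / (4 * C) * FT))
    (fun v => hs1 _) (fun v => hs1 _)
    (fun v => by
      simp only [r]
      split_ifs
      · have := hs1 (wf v)
        positivity
      · exact le_rfl)
    (fun v _ _ a b hab => by
      simp only [r]
      split_ifs with hv
      · exact (hlocF v).2.2 _ _ (hy a b hab)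
      · rw [neg_zero]
        exact hgood v hv _ _ (hy a b hab))
    (fun a b hab => by
      have hw := hy a b hab
      have h1 := global_le hd hf h0 wi hwi wf hwf hw S (fun v hv =>
        potgood_gg hd hf hrs0 (wf v) (ext_na v _ (hwf v)) (hT v fun h => hv (hTS h))
          (wd_vL_ne hw))
      have h2 := hcanX _ (hyX a)
      have h3 := hcanX _ (hyX b)
      have e1 : ∀ v : InfinitePlace K, (v.mult : ℝ) * (pot d f (wi v) (y a) +
          pot d f (wi v) (y b) - Real.log (v.val (wd (y a) (y b)))) = (v.mult : ℝ) *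
          gg (wi v) (ev (fL K f)) d (Real.log (wi v (rs (fL K f) d))) (vL K (y a))
            (vL K (y b)) := fun v => by rw [pot_gg d f (hwi v)]
      have e2 : ∀ v : FinitePlace K, pot d f (wf v) (y a) +
          pot d f (wf v) (y b) - Real.log (v.val (wd (y a) (y b))) =
          gg (wf v) (ev (fL K f)) d (Real.log (wf v (rs (fL K f) d))) (vL K (y a))
            (vL K (y b)) := fun v => pot_gg d f (hwf v) _ _
      simp only [e1, e2]
      linarith)
    (fun v => (hloss _ (hs1 _)).trans ((hlocI v).1 k y hy hy0))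
    (fun v => (hloss _ (hs1 _)).trans ((hlocF v).1 k y hy hy0))
    (fun v => by
      obtain ⟨cell, hcell⟩ := (hlocI v).2.1
      exact ⟨fun a => cell (y a), fun a b hab hc' => hcell _ _ (hy a b hab) hc'⟩)
    (fun v => by
      obtain ⟨cell, hcell⟩ := (hlocF v).2.1
      exact ⟨fun a => cell (y a), fun a b hab hc' => hcell _ _ (hy a b hab) hc'⟩)
    (fun v a b hab => (hlocI v).2.2 _ _ (hy a b hab))
    (fun v a b hab => (hlocF v).2.2 _ _ (hy a b hab))
  have hr : ∑ v ∈ S.filter (fun v => v.val (M₀ : K) = 1), r v =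
      B * ∑ v ∈ T.filter (fun v => v.val (M₀ : K) = 1), (1 + max (msz d f (wf v)) 0) := by
    rw [Finset.mul_sum]
    have hsub : T.filter (fun v => v.val (M₀ : K) = 1) ⊆ S.filter (fun v => v.val (M₀ : K) = 1) :=
      Finset.filter_subset_filter _ hTS
    rw [← Finset.sum_subset hsub (f := r)]
    · refine Finset.sum_congr rfl fun v hv => ?_
      simp only [r]
      rw [if_pos (Finset.mem_filter.1 hv).1]
    · intro v hv hvT
      simp only [r]
      rw [if_neg]
      intro h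
      exact hvT (Finset.mem_filter.2 ⟨h, (Finset.mem_filter.1 hv).2⟩)
  rw [hr] at key
  have hle : FT ≤ ∑ v : InfinitePlace K, (v.mult : ℝ) * (1 + max (msz d f (wi v)) 0) +
      ∑ v ∈ S.filter (fun v => v.val (M₀ : K) ≠ 1), (1 + max (msz d f (wf v)) 0) := by
    rw [hFT]
    unfold big
    refine add_le_add le_rfl ?_
    refine Finset.sum_le_sum_of_subset_of_nonneg (Finset.filter_subset_filter _ hTS) ?_
    intro v _ _
    linarith [hs1 (wf v)]
  have hoff0 : 0 ≤ ∑ v ∈ T.filter (fun v => v.val (M₀ : K) = 1),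
      (1 + max (msz d f (wf v)) 0) := Finset.sum_nonneg fun v _ => by linarith [hs1 (wf v)]
  have h1 := hle.trans key
  have h2 : C * (2 * (1 / (4 * C) * FT) + 2 * (B * ∑ v ∈ T.filter (fun v => v.val (M₀ : K) = 1),
      (1 + max (msz d f (wf v)) 0))) = FT / 2 + 2 * C * B *
      ∑ v ∈ T.filter (fun v => v.val (M₀ : K) = 1), (1 + max (msz d f (wf v)) 0) := by
    field_simp
    ring
  rw [h2] at h1
  have h3 : 0 ≤ 4 * C * ∑ v ∈ T.filter (fun v => v.val (M₀ : K) = 1),
      (1 + max (msz d f (wf v)) 0) := by positivity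
  linarith

end TH951.FE
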