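import Mathlib
import Pool.Agent.TH951.NF.PropB

/-! Interpolation of rational functions, and heights of solutions of linear systems. -/

set_option autoImplicit false

open Height NumberField Module Finset

namespace TH951.FE

universe u

open Polynomial in
theorem uniq {K : Type u} [Field K] {d : ℕ} {A B A' B' : K[X]} (hcop : IsCoprime A B)
    (hA : A.natDegree ≤ d) (hB : B.natDegree ≤ d) (hA' : A'.natDegree ≤ d)
    (hB' : B'.natDegree ≤ d) (htop : A.coeff d ≠ 0 ∨ B.coeff d ≠ 0) (s : Finset K)
    (hs : 2 * d < s.card) (hroot : ∀ x ∈ s, A.eval x * B'.eval x = B.eval x * A'.eval x) :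
    ∃ c : K, A' = C c * A ∧ B' = C c * B := by
  have h1 : A * B' - B * A' = 0 := by
    refine Polynomial.eq_zero_of_natDegree_lt_card_of_eval_eq_zero' _ s ?_ ?_
    · intro x hx
      rw [eval_sub, eval_mul, eval_mul, hroot x hx, sub_self]
    · refine lt_of_le_of_lt ?_ hs
      refine (natDegree_sub_le _ _).trans (max_le ?_ ?_)
      · refine natDegree_mul_le.trans ?_
        omega
      · refine natDegree_mul_le.trans ?_
        omega
  have h2 : A * B' = B * A' := sub_eq_zero.1 h1
  have key : ∀ {P Q P' Q' : K[X]}, IsCoprime P Q → P.natDegree ≤ d → P'.natDegree ≤ d →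
      P.coeff d ≠ 0 → P * Q' = Q * P' → ∃ c : K, P' = C c * P ∧ Q' = C c * Q := by
    intro P Q P' Q' hPQ hP hP' htop h
    have hP0 : P ≠ 0 := by rintro rfl; simp at htop
    have hPd : P.natDegree = d := le_antisymm hP (le_natDegree_of_ne_zero htop)
    have hdvd : P ∣ P' := hPQ.dvd_of_dvd_mul_left ⟨Q', h.symm⟩
    obtain ⟨q, hq⟩ := hdvd
    have hq0 : ∃ c : K, q = C c := by
      by_cases hq1 : q = 0
      · exact ⟨0, by simp [hq1]⟩
      · have h3 : P'.natDegree = P.natDegree + q.natDegree := by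
          rw [hq, natDegree_mul hP0 hq1]
        have h4 : q.natDegree = 0 := by omega
        exact ⟨q.coeff 0, eq_C_of_natDegree_eq_zero h4⟩
    obtain ⟨c, hc⟩ := hq0
    refine ⟨c, by rw [hq, hc, mul_comm], ?_⟩
    apply mul_left_cancel₀ hP0
    rw [h, hq, hc]
    ring
  rcases htop with h | h
  · exact key hcop hA hA' h h2
  · obtain ⟨c, h3, h4⟩ := key hcop.symm hB hB' h h2.symm
    exact ⟨c, h4, h3⟩

variable {K : Type u} [Field K] [NumberField K]

/-- heights of the solutions of a linear system with a one dimensional space of solutions -/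
theorem cramer_ht {n : ℕ} {ι : Type} [Fintype ι] [DecidableEq ι] (hcard : Fintype.card ι = n + 1)
    (M : Matrix (Fin n) ι K) (γ : ι → K) (hγ : M.mulVec γ = 0) (hγ0 : γ ≠ 0)
    (huniq : ∀ γ' : ι → K, M.mulVec γ' = 0 → ∃ c : K, γ' = c • γ) (H : ℝ)
    (hH : ∀ i e, NF.ht (M i e) ≤ H) :
    ∃ c : K, c ≠ 0 ∧ ∀ e, NF.ht (c * γ e) ≤ 2 * (n.factorial * (1 + n * max H 0)) := by
  classical
  obtain ⟨e₀, he₀⟩ : ∃ e, γ e ≠ 0 := by
    by_contra h
    push Not at h
    exact hγ0 (funext h)
  have hc1 : Fintype.card {e : ι // e ≠ e₀} = n := by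
    rw [Fintype.card_subtype_compl, Fintype.card_subtype_eq, hcard]
    rfl
  let e' : Fin n ≃ {e : ι // e ≠ e₀} := (Fintype.equivFinOfCardEq hc1).symm
  let M' : Matrix (Fin n) (Fin n) K := fun i k => M i (e' k).1
  let b : Fin n → K := fun i => -M i e₀
  have hsplit : ∀ (g : ι → K), ∑ e, g e = g e₀ + ∑ k, g (e' k).1 := by
    intro g
    rw [← Finset.add_sum_erase _ _ (Finset.mem_univ e₀)]
    congr 1
    rw [Equiv.sum_comp e' (fun e => g e.1)]
    rw [← Finset.sum_subtype (Finset.univ.erase e₀) (fun x => by simp) g]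
  have hmul : ∀ (g : ι → K) i, M.mulVec g i = M i e₀ * g e₀ +
      M'.mulVec (fun k => g (e' k).1) i := by
    intro g i
    unfold Matrix.mulVec dotProduct
    rw [hsplit]
  have hdet : M'.det ≠ 0 := by
    intro h
    obtain ⟨v, hv0, hv⟩ := Matrix.exists_mulVec_eq_zero_iff.2 h
    let g : ι → K := fun e => if h : e ≠ e₀ then v (e'.symm ⟨e, h⟩) else 0
    have hg : ∀ k, g (e' k).1 = v k := by
      intro k
      simp only [g]
      rw [dif_pos (e' k).2]
      simp
    have hg0 : g e₀ = 0 := by simp [g]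
    obtain ⟨c, hc⟩ := huniq g (by
      funext i
      rw [hmul, hg0, mul_zero, zero_add]
      have : (fun k => g (e' k).1) = v := funext hg
      rw [this, hv])
    have hc0 : c = 0 := by
      have := congrFun hc e₀
      rw [hg0, Pi.smul_apply, smul_eq_mul] at this
      exact (mul_eq_zero.1 this.symm).resolve_right he₀
    apply hv0
    funext k
    rw [← hg k, hc, hc0]
    simp
  refine ⟨(γ e₀)⁻¹, inv_ne_zero he₀, ?_⟩
  set c := (γ e₀)⁻¹ with hc
  have hH0 : 0 ≤ max H 0 := le_max_right _ _
  have hb0 : (0 : ℝ) ≤ 2 * (n.factorial * (1 + n * max H 0)) := by positivity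
  let v : Fin n → K := fun k => c * γ (e' k).1
  have hv : M'.mulVec v = b := by
    funext i
    have h1 := congrFun hγ i
    rw [hmul] at h1
    have h2 : M'.mulVec v i = c * M'.mulVec (fun k => γ (e' k).1) i := by
      unfold Matrix.mulVec dotProduct
      rw [Finset.mul_sum]
      refine Finset.sum_congr rfl fun k _ => ?_
      simp only [v]
      ring
    rw [h2]
    have h3 : M'.mulVec (fun k => γ (e' k).1) i = -(M i e₀ * γ e₀) := by
      rw [Pi.zero_apply] at h1
      linear_combination h1
    rw [h3, hc]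
    simp only [b]
    field_simp
  have hcr : M'.cramer b = M'.det • v := by
    have h1 := Matrix.mulVec_cramer M' b
    have h2 : M'.mulVec (M'.det • v) = M'.det • b := by rw [Matrix.mulVec_smul, hv]
    have hinj : Function.Injective M'.mulVec :=
      Matrix.mulVec_injective_iff_isUnit.2 ((Matrix.isUnit_iff_isUnit_det _).2 (isUnit_iff_ne_zero.2 hdet))
    exact hinj (h1.trans h2.symm)
  intro e
  by_cases he : e = e₀
  · rw [he, hc, inv_mul_cancel₀ he₀, NF.ht_one]
    exact hb0
  · obtain ⟨k, hk⟩ : ∃ k, (e' k).1 = e := ⟨e'.symm ⟨e, he⟩, by simp⟩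
    have h1 : c * γ e = (M'.updateCol k b).det / M'.det := by
      rw [← Matrix.cramer_apply, hcr, Pi.smul_apply, smul_eq_mul, mul_div_cancel_left₀ _ hdet, ← hk]
    rw [h1]
    refine (NF.ht_div _ _).trans ?_
    have h2 : NF.ht (M'.updateCol k b).det ≤ n.factorial * (1 + n * max H 0) := by
      refine NF.ht_det _ _ fun i j => ?_
      rw [Matrix.updateCol_apply]
      split_ifs
      · simp only [b]
        rw [NF.ht_neg]
        exact (hH _ _).trans (le_max_left _ _)
      · exact (hH _ _).trans (le_max_left _ _)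
    have h3 : NF.ht M'.det ≤ n.factorial * (1 + n * max H 0) :=
      NF.ht_det _ _ fun i j => (hH _ _).trans (le_max_left _ _)
    linarith

end TH951.FE
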