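import Mathlib
import Pool.Agent.TH951.FE.Lin
import Pool.Agent.TH951.FE.NFC
import Pool.Agent.H951R3.PB.E1
import Pool.Agent.H951R3.PB.F5

/-! Rational maps in the coordinates given by three points of a configuration. -/

set_option autoImplicit false

open Height NumberField Module Finset Pool.Agent.H951R3.PB

namespace TH951.FE

universe u

section conj

variable {K : Type u} [Field K]

open MvPolynomial in
theorem conj_poly {d : ℕ} {f : Fin 2 → MvPolynomial (Fin 2) K} (hf : ∀ i, (f i).IsHomogeneous d)
    (hz : ∀ x : Fin 2 → AlgebraicClosure K, (∀ i, aeval x (f i) = 0) → x = 0)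
    (L : Matrix (Fin 2) (Fin 2) K) (hL : L.det ≠ 0) :
    ∃ g : Fin 2 → MvPolynomial (Fin 2) K, (∀ i, (g i).IsHomogeneous d) ∧
      (∀ x : Fin 2 → K, L.mulVec (ev f x) = ev g (L.mulVec x)) ∧
      (∀ x : Fin 2 → AlgebraicClosure K, (∀ i, aeval x (g i) = 0) → x = 0) := by
  classical
  have hu : IsUnit L.det := isUnit_iff_ne_zero.2 hL
  set l : Fin 2 → MvPolynomial (Fin 2) K := fun j => ∑ k, C (L⁻¹ j k) * X k with hl
  set g : Fin 2 → MvPolynomial (Fin 2) K := fun i => ∑ j, C (L i j) * aeval l (f j) with hg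
  have hlhom : ∀ j, (l j).IsHomogeneous 1 := by
    intro j
    refine IsHomogeneous.sum _ _ _ fun k _ => ?_
    simpa using (isHomogeneous_C (Fin 2) (L⁻¹ j k)).mul (isHomogeneous_X K k)
  have hghom : ∀ i, (g i).IsHomogeneous d := by
    intro i
    refine IsHomogeneous.sum _ _ _ fun j _ => ?_
    have h1 := (hf j).aeval l hlhom
    rw [one_mul] at h1
    simpa using (isHomogeneous_C (Fin 2) (L i j)).mul h1
  -- evaluation in an extension
  have key : ∀ (E : Type u) [Field E] [Algebra K E] (x : Fin 2 → E) (i : Fin 2),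
      aeval x (g i) = ∑ j, algebraMap K E (L i j) *
        aeval ((L⁻¹.map (algebraMap K E)).mulVec x) (f j) := by
    intro E _ _ x i
    simp only [hg, map_sum, map_mul, aeval_C]
    refine Finset.sum_congr rfl fun j _ => ?_
    congr 1
    have h1 : aeval x (aeval l (f j)) = ((aeval x).comp (aeval l)) (f j) := rfl
    rw [h1, comp_aeval]
    congr 1
    congr 1
    funext k
    simp only [hl, map_sum, map_mul, aeval_C, aeval_X]
    rfl
  refine ⟨g, hghom, ?_, ?_⟩
  · intro x
    funext i
    have h1 := key K (L.mulVec x) i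
    have h2 : (L⁻¹.map (algebraMap K K)).mulVec (L.mulVec x) = x := by
      have h3 : L⁻¹.map (algebraMap K K) = L⁻¹ := by
        ext a b; simp
      rw [h3, Matrix.mulVec_mulVec, Matrix.nonsing_inv_mul _ hu, Matrix.one_mulVec]
    rw [h2] at h1
    have h4 : ∀ (y : Fin 2 → K) (p : MvPolynomial (Fin 2) K), eval y p = aeval y p := fun y p => by
      rw [← coe_aeval_eq_eval]; rfl
    unfold ev Matrix.mulVec dotProduct
    simp only [h4]
    exact h1.symm
  · intro x hx
    set y := (L⁻¹.map (algebraMap K (AlgebraicClosure K))).mulVec x with hy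
    have h1 : ∀ j, aeval y (f j) = 0 := by
      have h2 : (L.map (algebraMap K (AlgebraicClosure K))).mulVec (fun j => aeval y (f j)) = 0 := by
        funext i
        have := key (AlgebraicClosure K) x i
        rw [hx i] at this
        exact this.symm
      have h3 : (L.map (algebraMap K (AlgebraicClosure K))).det ≠ 0 := by
        have h4 : (L.map (algebraMap K (AlgebraicClosure K))).det =
            algebraMap K (AlgebraicClosure K) L.det :=
          (RingHom.map_det (algebraMap K (AlgebraicClosure K)) L).symm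
        rw [h4]
        exact (map_ne_zero _).2 hL
      have h4 := Matrix.eq_zero_of_mulVec_eq_zero h3 h2
      exact fun j => congrFun h4 j
    have h5 := hz y h1
    have h6 : (L.map (algebraMap K (AlgebraicClosure K))).mulVec y = x := by
      rw [hy, Matrix.mulVec_mulVec]
      have h7 : L.map (algebraMap K (AlgebraicClosure K)) *
          L⁻¹.map (algebraMap K (AlgebraicClosure K)) = 1 := by
        rw [← Matrix.map_mul, Matrix.mul_nonsing_inv _ hu]
        simp
      rw [h7, Matrix.one_mulVec]
    rw [← h6, h5, Matrix.mulVec_zero]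

open MvPolynomial in
theorem eval_one {d : ℕ} {p : MvPolynomial (Fin 2) K} (hp : p.IsHomogeneous d) (x : K) :
    eval ![x, 1] p = (dh p).eval x := by
  have h := Pool.Agent.H951R3.PB.E1.eval_of_ne hp ![x, 1] (by simp)
  simpa using h

theorem cop {d : ℕ} {g : Fin 2 → MvPolynomial (Fin 2) K} (hg : ∀ i, (g i).IsHomogeneous d)
    (hz : ∀ x : Fin 2 → AlgebraicClosure K, (∀ i, MvPolynomial.aeval x (g i) = 0) → x = 0) :
    IsCoprime (dh (g 0)) (dh (g 1)) ∧
      ((dh (g 0)).coeff d ≠ 0 ∨ (dh (g 1)).coeff d ≠ 0) := by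
  have hmap : ∀ (i : Fin 2) (x : Fin 2 → AlgebraicClosure K),
      MvPolynomial.aeval x (g i) =
        MvPolynomial.eval x ((g i).map (algebraMap K (AlgebraicClosure K))) := by
    intro i x
    rw [MvPolynomial.eval_map, MvPolynomial.aeval_def]
  constructor
  · rw [Polynomial.isCoprime_iff_aeval_ne_zero_of_isAlgClosed K (AlgebraicClosure K)]
    intro a
    by_contra h
    push Not at h
    have h1 : (![a, 1] : Fin 2 → AlgebraicClosure K) = 0 := by
      apply hz
      intro i
      rw [hmap, eval_one ((hg i).map _), Pool.Agent.H951R3.PB.E1.map_dh, Polynomial.eval_map_algebraMap]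
      fin_cases i
      · exact h.1
      · exact h.2
    have h2 := congrFun h1 1
    simp at h2
  · by_contra h
    push Not at h
    have h1 : (![1, 0] : Fin 2 → AlgebraicClosure K) = 0 := by
      apply hz
      intro i
      rw [hmap, Pool.Agent.H951R3.PB.E1.eval_of_eq ((hg i).map _) _ (by simp),
        Pool.Agent.H951R3.PB.E1.map_dh, Polynomial.coeff_map]
      fin_cases i
      · have := h.1
        simp only [Fin.zero_eta]
        rw [this]; simp
      · have := h.2
        simp only [Fin.mk_one]
        rw [this]; simp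
    have h2 := congrFun h1 0
    simp at h2

theorem coeff_dh {d : ℕ} {p : MvPolynomial (Fin 2) K} (hp : p.IsHomogeneous d) (m : Fin 2 →₀ ℕ) :
    p.coeff m = if m 0 + m 1 = d then (dh p).coeff (m 0) else 0 := by
  conv_lhs => rw [← Pool.Agent.H951R3.PB.E1.homog_dh hp]
  exact Polynomial.coeff_homogenize _ _ _

end conj

/-- the height of the coefficients of a map with given values at `2 d + 1` points -/
theorem coeff_ht {K : Type u} [Field K] [NumberField K] {d : ℕ}
    {g : Fin 2 → MvPolynomial (Fin 2) K} (hg : ∀ i, (g i).IsHomogeneous d)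
    (hz : ∀ x : Fin 2 → AlgebraicClosure K, (∀ i, MvPolynomial.aeval x (g i) = 0) → x = 0)
    (x : Fin (2 * d + 1) → K) (hx : Function.Injective x) (q : Fin (2 * d + 1) → Fin 2 → K)
    (hq : ∀ i, q i ≠ 0) (hgq : ∀ i, wd (ev g ![x i, 1]) (q i) = 0) (H : ℝ) (hH0 : 0 ≤ H)
    (hxH : ∀ i, NF.ht (x i) ≤ H) (hqH : ∀ i j, NF.ht (q i j) ≤ H) :
    ∃ c : K, c ≠ 0 ∧ ∀ i m, NF.ht ((MvPolynomial.C c * g i).coeff m) ≤
      2 * ((2 * d + 1).factorial * (1 + (2 * d + 1 : ℕ) * (d * H + H))) := by
  classical
  obtain ⟨hcop, htop⟩ := cop hg hz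
  let M : Matrix (Fin (2 * d + 1)) (Fin 2 × Fin (d + 1)) K := fun i e =>
    x i ^ (e.2 : ℕ) * ![q i 1, -q i 0] e.1
  let P : (Fin 2 × Fin (d + 1) → K) → Fin 2 → Polynomial K := fun γ ε =>
    ∑ j : Fin (d + 1), Polynomial.C (γ (ε, j)) * Polynomial.X ^ (j : ℕ)
  have hPdeg : ∀ γ ε, (P γ ε).natDegree ≤ d := by
    intro γ ε
    refine Polynomial.natDegree_sum_le_of_forall_le _ _ fun j _ => ?_
    exact (Polynomial.natDegree_C_mul_X_pow_le _ _).trans (by omega)
  have hPcoeff : ∀ γ ε (j : Fin (d + 1)), (P γ ε).coeff j = γ (ε, j) := by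
    intro γ ε j
    simp only [P, Polynomial.finsetSum_coeff, Polynomial.coeff_C_mul, Polynomial.coeff_X_pow]
    rw [Finset.sum_eq_single j]
    · simp
    · intro b _ hb
      rw [if_neg, mul_zero]
      exact fun h => hb (Fin.ext h.symm)
    · simp
  have hPeval : ∀ γ ε y, (P γ ε).eval y = ∑ j : Fin (d + 1), γ (ε, j) * y ^ (j : ℕ) := by
    intro γ ε y
    simp only [P, Polynomial.eval_finsetSum, Polynomial.eval_mul, Polynomial.eval_C,
      Polynomial.eval_pow, Polynomial.eval_X]
  have hM : ∀ γ i, M.mulVec γ i = (P γ 0).eval (x i) * q i 1 - (P γ 1).eval (x i) * q i 0 := by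
    intro γ i
    unfold Matrix.mulVec dotProduct
    rw [Fintype.sum_prod_type, Fin.sum_univ_two, hPeval, hPeval, Finset.sum_mul, Finset.sum_mul,
      sub_eq_add_neg, ← Finset.sum_neg_distrib]
    congr 1
    · refine Finset.sum_congr rfl fun j _ => ?_
      simp only [M, Matrix.cons_val_zero]
      ring
    · refine Finset.sum_congr rfl fun j _ => ?_
      have h1 : (![q i 1, -q i 0] : Fin 2 → K) 1 = -q i 0 := rfl
      simp only [M, h1]
      ring
  let γ : Fin 2 × Fin (d + 1) → K := fun e => (dh (g e.1)).coeff e.2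
  have hPγ : ∀ ε, P γ ε = dh (g ε) := by
    intro ε
    have h1 := Pool.Agent.H951R3.PB.E1.natDegree_dh_le (hg ε)
    have h2 := Polynomial.as_sum_range_C_mul_X_pow' (dh (g ε)) (n := d + 1) (by omega)
    conv_rhs => rw [h2]
    simp only [P, γ]
    exact Fin.sum_univ_eq_sum_range (fun j => Polynomial.C ((dh (g ε)).coeff j) *
      Polynomial.X ^ j) (d + 1)
  have hγ : M.mulVec γ = 0 := by
    funext i
    rw [hM, hPγ, hPγ]
    have h1 := hgq i
    unfold wd ev at h1
    simp only [eval_one (hg 0), eval_one (hg 1)] at h1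
    exact h1
  have hγ0 : γ ≠ 0 := by
    intro h
    rcases htop with h1 | h1
    · exact h1 (congrFun h (0, Fin.last d))
    · exact h1 (congrFun h (1, Fin.last d))
  obtain ⟨c, hc0, hc⟩ := cramer_ht (n := 2 * d + 1) (ι := Fin 2 × Fin (d + 1))
    (by rw [Fintype.card_prod, Fintype.card_fin, Fintype.card_fin]; ring) M γ hγ hγ0 (by
      intro γ' hγ'
      obtain ⟨c, h1, h2⟩ := uniq (A' := P γ' 0) (B' := P γ' 1) hcop
        (Pool.Agent.H951R3.PB.E1.natDegree_dh_le (hg 0))
        (Pool.Agent.H951R3.PB.E1.natDegree_dh_le (hg 1)) (hPdeg _ _) (hPdeg _ _) htop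
        (Finset.univ.image x) (by
          rw [Finset.card_image_of_injective _ hx, Finset.card_univ, Fintype.card_fin]
          omega) (by
          intro y hy
          obtain ⟨i, -, rfl⟩ := Finset.mem_image.1 hy
          have e1 := congrFun hγ i
          have e2 := congrFun hγ' i
          rw [hM, hPγ, hPγ, Pi.zero_apply] at e1
          rw [hM, Pi.zero_apply] at e2
          have hqi := hq i
          rcases eq_or_ne (q i 0) 0 with h0 | h0
          · have h1 : q i 1 ≠ 0 := by
              intro h1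
              apply hqi
              funext j
              fin_cases j
              · exact h0
              · exact h1
            apply mul_left_cancel₀ h1
            linear_combination (P γ' 1).eval (x i) * e1 - (dh (g 1)).eval (x i) * e2
          · apply mul_left_cancel₀ h0
            linear_combination (P γ' 0).eval (x i) * e1 - (dh (g 0)).eval (x i) * e2)
      refine ⟨c, ?_⟩
      funext e
      obtain ⟨ε, j⟩ := e
      rw [Pi.smul_apply, smul_eq_mul, ← hPcoeff γ' ε j]
      fin_cases ε
      · simp only [Fin.zero_eta]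
        rw [h1, Polynomial.coeff_C_mul]
      · simp only [Fin.mk_one]
        rw [h2, Polynomial.coeff_C_mul]) (d * H + H) (by
      intro i e
      simp only [M]
      refine (NF.ht_mul _ _).trans (add_le_add ?_ ?_)
      · unfold NF.ht
        rw [logHeight₁_pow]
        have h1 := hxH i
        unfold NF.ht at h1
        have h2 : ((e.2 : ℕ) : ℝ) ≤ d := by
          have := e.2.2
          exact_mod_cast (by omega : (e.2 : ℕ) ≤ d)
        rw [mul_div_assoc]
        exact mul_le_mul h2 h1 (div_nonneg (zero_le_logHeight₁ _) (Nat.cast_nonneg _))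
          (Nat.cast_nonneg _)
      · obtain ⟨ε, j⟩ := e
        fin_cases ε
        · exact hqH i 1
        · have h1 : (![q i 1, -q i 0] : Fin 2 → K) 1 = -q i 0 := rfl
          simp only [Fin.mk_one, h1]
          rw [NF.ht_neg]
          exact hqH i 0)
  refine ⟨c, hc0, fun i m => ?_⟩
  rw [MvPolynomial.coeff_C_mul, coeff_dh (hg i) m]
  have hb0 : 0 ≤ 2 * (((2 * d + 1).factorial : ℝ) * (1 + (2 * d + 1 : ℕ) * (d * H + H))) := by
    positivity
  split_ifs with hm
  · have h1 : m 0 < d + 1 := by omega
    have h2 := hc (i, ⟨m 0, h1⟩)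
    refine h2.trans (le_of_eq ?_)
    rw [max_eq_left (by positivity)]
  · rw [mul_zero, NF.ht_zero]
    exact hb0

end TH951.FE
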