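import Mathlib
import Pool.Agent.TH951.FE.Cfg
import Pool.Agent.TH951.FE.Dyn
import Pool.Agent.H951R3.PB.G6
import Pool.Agent.H951R3.PB.Lang

/-! Finiteness of the maps with many preperiodic points. -/

set_option autoImplicit false

open Height NumberField Module Finset Pool.Agent.H951R3.PB

namespace TH951.FE

universe u

/-- a map in the coordinates of a configuration containing enough points and their images -/
theorem cfg_conj {K : Type u} [Field K] [NumberField K] {d m : ℕ}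
    {f : Fin 2 → MvPolynomial (Fin 2) K} (hf : ∀ i, (f i).IsHomogeneous d)
    (hz : ∀ x : Fin 2 → AlgebraicClosure K, (∀ i, MvPolynomial.aeval x (f i) = 0) → x = 0)
    (z : Fin (m + 3) → Fin 2 → K) (hzz : ∀ i k, i ≠ k → wd (z i) (z k) ≠ 0)
    (σ : Fin (2 * d + 1) → Fin (m + 2)) (hσ : Function.Injective σ)
    (τ : Fin (2 * d + 1) → Fin (m + 3)) (hτ : ∀ i, wd (ev f (z (σ i).succ)) (z (τ i)) = 0)
    (H : ℝ) (hH : ∀ a, NF.ht (xx z a) ≤ H) :
    ∃ (g : Fin 2 → MvPolynomial (Fin 2) K) (L : Matrix (Fin 2) (Fin 2) K) (c : K), L.det ≠ 0 ∧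
      c ≠ 0 ∧ (∀ i, (g i).IsHomogeneous d) ∧
      (∀ x : Fin 2 → K, c • L.mulVec (ev f x) = ev g (L.mulVec x)) ∧
      ∀ i m, NF.ht ((g i).coeff m) ≤
        2 * ((2 * d + 1).factorial * (1 + (2 * d + 1 : ℕ) * (d * H + H))) := by
  classical
  have hH0 : 0 ≤ H := (NF.ht_nonneg _).trans (hH 0)
  set w20 := wd (z (1 : Fin (m + 2)).succ) (z 0) with hw20
  set w21 := wd (z (1 : Fin (m + 2)).succ) (z (0 : Fin (m + 2)).succ) with hw21
  have h20 : w20 ≠ 0 := w0 hzz 1
  have h21 : w21 ≠ 0 := w10 hzz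
  set z1 := z (0 : Fin (m + 2)).succ with hz1
  let L : Matrix (Fin 2) (Fin 2) K := !![z1 1 * w20, -(z1 0 * w20); z 0 1 * w21, -(z 0 0 * w21)]
  have hLx : ∀ x : Fin 2 → K, L.mulVec x = ![wd x z1 * w20, wd x (z 0) * w21] := by
    intro x
    funext i
    fin_cases i
    · simp [L, Matrix.mulVec, dotProduct, Fin.sum_univ_two, wd]; ring
    · simp [L, Matrix.mulVec, dotProduct, Fin.sum_univ_two, wd]; ring
  have hLdet : L.det = w20 * w21 * wd z1 (z 0) := by
    simp [L, Matrix.det_fin_two, wd]; ring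
  have hLwd : ∀ x y, wd (L.mulVec x) (L.mulVec y) = L.det * wd x y := by
    intro x y
    rw [hLx, hLx, hLdet]
    simp only [wd, Matrix.cons_val_zero, Matrix.cons_val_one]
    ring
  have hL : L.det ≠ 0 := by
    rw [hLdet]
    exact mul_ne_zero (mul_ne_zero h20 h21) (w0 hzz 0)
  obtain ⟨g, hg, hgf, hgz⟩ := conj_poly hf hz L hL
  have hLz : ∀ a : Fin (m + 2), L.mulVec (z a.succ) =
      (wd (z a.succ) (z 0) * w21) • (![xx z a, 1] : Fin 2 → K) := by
    intro a
    have h1 := w0 hzz a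
    rw [hLx]
    funext i
    fin_cases i
    · change wd (z a.succ) z1 * w20 = wd (z a.succ) (z 0) * w21 *
        (wd (z a.succ) z1 * w20 / (wd (z a.succ) (z 0) * w21))
      field_simp
    · simp
  have hLz0 : L.mulVec (z 0) = (wd (z 0) z1 * w20) • (![1, 0] : Fin 2 → K) := by
    rw [hLx]
    have h1 : wd (z 0) (z 0) = 0 := by unfold wd; ring
    funext i
    fin_cases i
    · simp
    · simp [h1]
  -- the images
  have hq : ∀ b : Fin (m + 3), ∃ (k : K) (q : Fin 2 → K), k ≠ 0 ∧ q ≠ 0 ∧ L.mulVec (z b) = k • q ∧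
      ∀ j, NF.ht (q j) ≤ H := by
    intro b
    induction b using Fin.cases with
    | zero =>
      refine ⟨wd (z 0) z1 * w20, ![1, 0], mul_ne_zero (hzz _ _ (Fin.succ_ne_zero _).symm) h20, ?_,
        hLz0, ?_⟩
      · intro h
        have := congrFun h 0
        simp at this
      · intro j
        fin_cases j
        · change NF.ht (1 : K) ≤ H
          rw [NF.ht_one]; exact hH0
        · change NF.ht (0 : K) ≤ H
          rw [NF.ht_zero]; exact hH0
    | succ a =>
      refine ⟨wd (z a.succ) (z 0) * w21, ![xx z a, 1], mul_ne_zero (w0 hzz a) h21, ?_, hLz a, ?_⟩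
      · intro h
        have := congrFun h 1
        simp at this
      · intro j
        fin_cases j
        · exact hH a
        · change NF.ht (1 : K) ≤ H
          rw [NF.ht_one]; exact hH0
  choose k q hk hq0 hkq hqH using hq
  obtain ⟨c, hc0, hc⟩ := coeff_ht hg hgz (fun i => xx z (σ i)) ((xx_inj hzz).comp hσ)
    (fun i => q (τ i)) (fun i => hq0 _) (by
      intro i
      have h1 : wd (L.mulVec (ev f (z (σ i).succ))) (L.mulVec (z (τ i))) = 0 := by
        rw [hLwd, hτ, mul_zero]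
      rw [hgf, hLz, ev_smul hg, hkq] at h1
      have h2 : wd ((wd (z (σ i).succ) (z 0) * w21) ^ d • ev g ![xx z (σ i), 1])
          (k (τ i) • q (τ i)) = (wd (z (σ i).succ) (z 0) * w21) ^ d * k (τ i) *
            wd (ev g ![xx z (σ i), 1]) (q (τ i)) := by
        simp only [wd, Pi.smul_apply, smul_eq_mul]
        ring
      rw [h2] at h1
      exact (mul_eq_zero.1 h1).resolve_left (mul_ne_zero (pow_ne_zero _
        (mul_ne_zero (w0 hzz _) h21)) (hk _))) H hH0 (fun i => hH _) (fun i j => hqH _ _)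
  refine ⟨fun i => MvPolynomial.C c * g i, L, c, hL, hc0, fun i => ?_, fun x => ?_, hc⟩
  · simpa using (MvPolynomial.isHomogeneous_C (Fin 2) c).mul (hg i)
  · rw [hgf]
    funext i
    simp [ev]

/-- adding points to a configuration -/
theorem extend {K : Type u} [Field K] [DecidableEq (Fin 2 → K)] (X : Finset (Fin 2 → K))
    (hX : ∀ x ∈ X, ∀ y ∈ X, x ≠ y → wd x y ≠ 0) (Y : Finset (Fin 2 → K)) :
    ∃ Z : Finset (Fin 2 → K), X ⊆ Z ∧ Z ⊆ X ∪ Y ∧ (∀ x ∈ Z, ∀ y ∈ Z, x ≠ y → wd x y ≠ 0) ∧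
      ∀ y ∈ Y, ∃ x ∈ Z, wd y x = 0 := by
  induction Y using Finset.induction_on with
  | empty => exact ⟨X, Finset.Subset.refl _, Finset.subset_union_left, hX, by simp⟩
  | insert y Y hy ih =>
    obtain ⟨Z, h1, h2, h3, h4⟩ := ih
    by_cases h : ∃ x ∈ Z, wd y x = 0
    · refine ⟨Z, h1, h2.trans (Finset.union_subset_union le_rfl (Finset.subset_insert _ _)), h3, ?_⟩
      intro y' hy'
      rcases Finset.mem_insert.1 hy' with rfl | hy'
      · exact h
      · exact h4 y' hy'
    · push Not at h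
      refine ⟨insert y Z, h1.trans (Finset.subset_insert _ _), ?_, ?_, ?_⟩
      · intro x hx
        rcases Finset.mem_insert.1 hx with rfl | hx
        · exact Finset.mem_union_right _ (Finset.mem_insert_self _ _)
        · exact Finset.union_subset_union le_rfl (Finset.subset_insert _ _) (h2 hx)
      · intro x hx x' hx' hne
        rcases Finset.mem_insert.1 hx with e1 | e1
        · rcases Finset.mem_insert.1 hx' with e2 | e2
          · exact absurd (e1.trans e2.symm) hne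
          · rw [e1]; exact h x' e2
        · rcases Finset.mem_insert.1 hx' with e2 | e2
          · have h5 := h x e1
            intro h6
            apply h5
            rw [e2] at h6
            have h7 : wd y x = -wd x y := by unfold wd; ring
            rw [h7, h6, neg_zero]
          · exact h3 x e1 x' e2 hne
      · intro y' hy'
        rcases Finset.mem_insert.1 hy' with rfl | hy'
        · exact ⟨y', Finset.mem_insert_self _ _, by unfold wd; ring⟩
        · obtain ⟨x, hx, hx'⟩ := h4 y' hy'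
          exact ⟨x, Finset.mem_insert_of_mem hx, hx'⟩

theorem pre_ev {K : Type u} [Field K] {d : ℕ} {f : Fin 2 → MvPolynomial (Fin 2) K}
    (hf : ∀ i, (f i).IsHomogeneous d) {x : Fin 2 → K} (h : Pre f x) : Pre f (ev f x) := by
  obtain ⟨m, n, hmn, c, hc, hcx⟩ := h
  refine ⟨m, n, hmn, c ^ d, pow_ne_zero _ hc, ?_⟩
  rw [← Function.iterate_succ_apply, ← Function.iterate_succ_apply, Function.iterate_succ_apply',
    Function.iterate_succ_apply', hcx, ev_smul hf]

/-- maps with many preperiodic points and little bad reduction outside `M₀` have, in suitable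
coordinates over `K`, coefficients of bounded height -/
theorem fin_main (d : ℕ) (hd : 2 ≤ d) (D : ℕ) : ∃ (N : ℕ) (δ η : ℝ), 0 < δ ∧ 0 < η ∧
    ∀ M₀ : ℕ, M₀ ≠ 0 → ∃ A : ℝ,
    ∀ (K : Type u) [Field K] [NumberField K], finrank ℚ K ≤ D →
    ∀ f : Fin 2 → MvPolynomial (Fin 2) K, (∀ i, (f i).IsHomogeneous d) →
      (∀ x : Fin 2 → AlgebraicClosure K, (∀ i, MvPolynomial.aeval x (f i) = 0) → x = 0) →
    ∀ (wi : InfinitePlace K → AbsoluteValue (AlgebraicClosure K) ℝ) (_ : ∀ v, Ext v.val (wi v))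
      (wf : FinitePlace K → AbsoluteValue (AlgebraicClosure K) ℝ) (_ : ∀ v, Ext v.val (wf v))
      (T : Finset (FinitePlace K)), (∀ v, v ∉ T → PotGoodAt (wf v) d f) →
      ∑ v ∈ T.filter (fun v => v.val (M₀ : K) = 1), (1 + max (msz d f (wf v)) 0) ≤
        δ * big d f wi wf (T.filter fun v => v.val (M₀ : K) ≠ 1) →
    ∀ X : Finset (Fin 2 → K), N ≤ X.card → (∀ x ∈ X, x ≠ 0) →
      (∀ x ∈ X, ∀ y ∈ X, x ≠ y → wd x y ≠ 0) →
      (∀ x ∈ X, hcan d f x ≤ η * big d f wi wf (T.filter fun v => v.val (M₀ : K) ≠ 1)) →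
    ∃ (g : Fin 2 → MvPolynomial (Fin 2) K) (L : Matrix (Fin 2) (Fin 2) K) (c : K), L.det ≠ 0 ∧
      c ≠ 0 ∧ (∀ i, (g i).IsHomogeneous d) ∧
      (∀ x : Fin 2 → K, c • L.mulVec (ev f x) = ev g (L.mulVec x)) ∧
      ∀ i m, logHeight₁ ((g i).coeff m) ≤ A := by
  classical
  obtain ⟨N₁, η, C, hη, hC, hdyn⟩ := dyn.{u} d hd D
  obtain ⟨N₀, C₀, hC₀, hcore⟩ := nf_core.{u} D
  obtain ⟨M, c₁, B, hc₁, hB, hloc⟩ := local_facts.{u} d hd
  set N : ℕ := N₁ + (2 * d + 2) + (N₀ + 3) with hN
  refine ⟨N, 1 / (2 * C), η, by positivity, hη, ?_⟩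
  intro M₀ hM₀
  obtain ⟨A₁, hA₁, hdyn⟩ := hdyn M₀ hM₀
  obtain ⟨A₂, hA₂, hcore⟩ := hcore M₀ hM₀
  set A₃ : ℝ := 2 * B * (1 / (2 * C) * (2 * A₁)) + B * (2 * A₁) + 2 * (d * (η * (2 * A₁))) with hA₃
  have hA₃0 : 0 ≤ A₃ := by positivity
  set H : ℝ := C₀ * ((2 * N : ℕ) ^ 2 * A₃) + A₂ with hH
  have hH0 : 0 ≤ H := by positivity
  refine ⟨D * (2 * ((2 * d + 1).factorial * (1 + (2 * d + 1 : ℕ) * (d * H + H)))), ?_⟩
  intro K _ _ hK f hf hz wi hwi wf hwf T hT hoff X hXN hX0 hX hpre
  have h0 : rs f d ≠ 0 := rs_ne_of_noZero (by omega) hf hz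
  have hrs : rs (fL K f) d = algebraMap K (AlgebraicClosure K) (rs f d) := rs_map _ f d
  have hrs0 : rs (fL K f) d ≠ 0 := by
    rw [hrs]
    exact (map_ne_zero_iff _ (algebraMap K (AlgebraicClosure K)).injective).2 h0
  have hs1 : ∀ w, 1 ≤ 1 + max (msz d f w) 0 := fun w => by
    have : 0 ≤ max (msz d f w) 0 := le_max_right _ _
    linarith
  set FJ := big d f wi wf (T.filter fun v => v.val (M₀ : K) ≠ 1) with hFJ
  set FO := ∑ v ∈ T.filter (fun v => v.val (M₀ : K) = 1), (1 + max (msz d f (wf v)) 0) with hFO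
  have hFJ0 : 0 ≤ FJ := by
    rw [hFJ]
    unfold big
    refine add_nonneg (Finset.sum_nonneg fun v _ => mul_nonneg (Nat.cast_nonneg _) ?_)
      (Finset.sum_nonneg fun v _ => ?_)
    · linarith [hs1 (wi v)]
    · linarith [hs1 (wf v)]
  have hFO0 : 0 ≤ FO := Finset.sum_nonneg fun v _ => by linarith [hs1 (wf v)]
  -- the sizes are bounded
  have hFJA : FJ ≤ 2 * A₁ := by
    have h1 := hdyn K hK f hf h0 wi hwi wf hwf T hT X (by omega) hX0 hX hpre
    change FJ ≤ C * FO + A₁ at h1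
    have h2 : C * FO ≤ C * (1 / (2 * C) * FJ) := mul_le_mul_of_nonneg_left hoff hC.le
    have h3 : C * (1 / (2 * C) * FJ) = FJ / 2 := by field_simp
    linarith
  have hFOA : FO ≤ 1 / (2 * C) * (2 * A₁) :=
    hoff.trans (mul_le_mul_of_nonneg_left hFJA (by positivity))
  -- the configuration
  obtain ⟨X₁, hX₁X, hX₁c⟩ := Finset.exists_subset_card_eq hXN
  obtain ⟨Z, hXZ, hZsub, hZ, hZim⟩ := extend X₁ (fun x hx y hy => hX x (hX₁X hx) y (hX₁X hy))
    (X₁.image (ev f))
  have hX₁im : ∀ x ∈ X₁, ∃ y ∈ Z, wd (ev f x) y = 0 := fun x hx =>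
    hZim _ (Finset.mem_image_of_mem _ hx)
  have hd1 : (1 : ℝ) ≤ d := by exact_mod_cast (by omega : 1 ≤ d)
  have hηF : η * FJ ≤ η * (2 * A₁) := mul_le_mul_of_nonneg_left hFJA hη.le
  have hηF0 : 0 ≤ η * (2 * A₁) := by positivity
  have hZpre : ∀ x ∈ Z, hcan d f x ≤ d * (η * (2 * A₁)) := by
    intro x hx
    rcases Finset.mem_union.1 (hZsub hx) with h1 | h1
    · refine ((hpre x (hX₁X h1)).trans hηF).trans ?_
      nlinarith
    · obtain ⟨y, hy, rfl⟩ := Finset.mem_image.1 h1
      rw [hcan_map hd hf h0 (hX0 y (hX₁X hy))]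
      exact mul_le_mul_of_nonneg_left ((hpre y (hX₁X hy)).trans hηF) (by linarith)
  have hZc : Z.card ≤ 2 * N := by
    refine (Finset.card_le_card hZsub).trans ((Finset.card_union_le _ _).trans ?_)
    have := Finset.card_image_le (s := X₁) (f := ev f)
    omega
  have hZc' : N ≤ Z.card := by
    rw [← hX₁c]
    exact Finset.card_le_card hXZ
  obtain ⟨m, hm⟩ : ∃ m, Z.card = m + 3 := ⟨Z.card - 3, by omega⟩
  let e : Fin (m + 3) ≃ Z := (Finset.equivFinOfCardEq hm).symm
  let z : Fin (m + 3) → Fin 2 → K := fun i => (e i : Fin 2 → K)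
  have hzZ : ∀ i, z i ∈ Z := fun i => (e i).2
  have hzinj : Function.Injective z := fun a b h => e.injective (Subtype.ext h)
  have hzz : ∀ i k, i ≠ k → wd (z i) (z k) ≠ 0 := fun i k hik =>
    hZ _ (hzZ i) _ (hzZ k) fun h => hik (hzinj h)
  obtain ⟨S, hTS, hS⟩ := exists_S z hzz T
  have hmult : ∀ v : InfinitePlace K, (0 : ℝ) ≤ v.mult := fun v => Nat.cast_nonneg _
  -- the cost of a pair
  have hcost : ∀ a b, a ≠ b → ∑ v ∈ S.filter (fun v => v.val (M₀ : K) = 1),
      |pot d f (wf v) (z a) + pot d f (wf v) (z b) - Real.log (v.val (wd (z a) (z b)))| ≤ A₃ := by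
    intro a b hab
    have hw := hzz a b hab
    have hgl := global_le hd hf h0 wi hwi wf hwf hw S (fun v hv =>
      potgood_gg hd hf hrs0 (wf v) (ext_na v _ (hwf v)) (hT v fun h => hv (hTS h)) (wd_vL_ne hw))
    have hca := hZpre _ (hzZ a)
    have hcb := hZpre _ (hzZ b)
    let GI : InfinitePlace K → ℝ := fun v => gg (wi v) (ev (fL K f)) d
      (Real.log (wi v (rs (fL K f) d))) (vL K (z a)) (vL K (z b))
    let GF : FinitePlace K → ℝ := fun v => gg (wf v) (ev (fL K f)) d
      (Real.log (wf v (rs (fL K f) d))) (vL K (z a)) (vL K (z b))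
    change ∑ v : InfinitePlace K, (v.mult : ℝ) * GI v + ∑ v ∈ S, GF v ≤
      hcan d f (z a) + hcan d f (z b) at hgl
    have hGI : ∀ v, -(B * (1 + max (msz d f (wi v)) 0)) ≤ GI v := by
      intro v
      have h1 := (hloc K f hf h0 v.val (wi v) (hwi v)).2.2 _ _ hw
      rw [pot_gg d f (hwi v)] at h1
      exact h1
    have hGF : ∀ v, -(if v ∈ T then B * (1 + max (msz d f (wf v)) 0) else 0) ≤ GF v := by
      intro v
      split_ifs with hv
      · have h1 := (hloc K f hf h0 v.val (wf v) (hwf v)).2.2 _ _ hw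
        rw [pot_gg d f (hwf v)] at h1
        exact h1
      · rw [neg_zero]
        exact potgood_gg hd hf hrs0 (wf v) (ext_na v _ (hwf v)) (hT v hv) (wd_vL_ne hw)
    have hsplit : ∑ v ∈ S, GF v = ∑ v ∈ S.filter (fun v => v.val (M₀ : K) = 1), GF v +
        ∑ v ∈ S.filter (fun v => v.val (M₀ : K) ≠ 1), GF v :=
      (Finset.sum_filter_add_sum_filter_not S _ GF).symm
    have hind : ∀ (p : FinitePlace K → Prop) [DecidablePred p], ∑ v ∈ S.filter p,
        (if v ∈ T then B * (1 + max (msz d f (wf v)) 0) else 0) =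
        B * ∑ v ∈ T.filter p, (1 + max (msz d f (wf v)) 0) := by
      intro p _
      rw [Finset.mul_sum, ← Finset.sum_filter, Finset.filter_filter]
      refine Finset.sum_congr ?_ fun _ _ => rfl
      ext v
      simp only [Finset.mem_filter]
      exact ⟨fun h => ⟨h.2.2, h.2.1⟩, fun h => ⟨hTS h.1, h.2, h.1⟩⟩
    have hJ : -(B * FJ) ≤ ∑ v : InfinitePlace K, (v.mult : ℝ) * GI v +
        ∑ v ∈ S.filter (fun v => v.val (M₀ : K) ≠ 1), GF v := by
      have h1 : ∑ v : InfinitePlace K, (v.mult : ℝ) * -(B * (1 + max (msz d f (wi v)) 0)) ≤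
          ∑ v : InfinitePlace K, (v.mult : ℝ) * GI v :=
        Finset.sum_le_sum fun v _ => mul_le_mul_of_nonneg_left (hGI v) (hmult v)
      have h2 : ∑ v ∈ S.filter (fun v => v.val (M₀ : K) ≠ 1),
          -(if v ∈ T then B * (1 + max (msz d f (wf v)) 0) else 0) ≤
          ∑ v ∈ S.filter (fun v => v.val (M₀ : K) ≠ 1), GF v :=
        Finset.sum_le_sum fun v _ => hGF v
      rw [Finset.sum_neg_distrib, hind] at h2
      have h3 : ∑ v : InfinitePlace K, (v.mult : ℝ) * -(B * (1 + max (msz d f (wi v)) 0)) =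
          -(B * ∑ v : InfinitePlace K, (v.mult : ℝ) * (1 + max (msz d f (wi v)) 0)) := by
        rw [Finset.mul_sum, ← Finset.sum_neg_distrib]
        exact Finset.sum_congr rfl fun v _ => by ring
      rw [h3] at h1
      have h4 : B * FJ = B * ∑ v : InfinitePlace K, (v.mult : ℝ) * (1 + max (msz d f (wi v)) 0) +
          B * ∑ v ∈ T.filter (fun v => v.val (M₀ : K) ≠ 1), (1 + max (msz d f (wf v)) 0) := by
        rw [hFJ, ← mul_add]; rfl
      rw [h4]
      linarith
    have hSO : ∑ v ∈ S.filter (fun v => v.val (M₀ : K) = 1), |GF v| ≤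
        ∑ v ∈ S.filter (fun v => v.val (M₀ : K) = 1), (GF v +
          2 * (if v ∈ T then B * (1 + max (msz d f (wf v)) 0) else 0)) := by
      refine Finset.sum_le_sum fun v _ => ?_
      have h1 := hGF v
      have h2 : 0 ≤ (if v ∈ T then B * (1 + max (msz d f (wf v)) 0) else 0) := by
        split_ifs
        · have := hs1 (wf v)
          positivity
        · exact le_rfl
      rw [abs_le]
      constructor <;> linarith
    rw [Finset.sum_add_distrib, ← Finset.mul_sum, hind] at hSO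
    have e2 : ∀ v : FinitePlace K, pot d f (wf v) (z a) + pot d f (wf v) (z b) -
        Real.log (v.val (wd (z a) (z b))) = GF v := fun v => pot_gg d f (hwf v) _ _
    simp only [e2]
    rw [hsplit] at hgl
    have h5 : B * FO ≤ B * (1 / (2 * C) * (2 * A₁)) := mul_le_mul_of_nonneg_left hFOA hB
    have h6 : B * FJ ≤ B * (2 * A₁) := mul_le_mul_of_nonneg_left hFJA hB
    change ∑ v ∈ S.filter (fun v => v.val (M₀ : K) = 1), |GF v| ≤
      ∑ v ∈ S.filter (fun v => v.val (M₀ : K) = 1), GF v + 2 * (B * FO) at hSO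
    rw [hA₃]
    linarith
  have hmN : N₀ ≤ m := by omega
  have hQ := (hcore K hK m hmN z hzz S hS (fun v a => pot d f (wf v) (z a))
    (((2 * N : ℕ) : ℝ) ^ 2 * A₃) (by
      rw [Finset.sum_comm]
      have h1 := Finset.sum_le_card_nsmul (univ : Finset (Fin (m + 3))).offDiag
        (fun p => ∑ v ∈ S.filter (fun v => v.val (M₀ : K) = 1),
          |pot d f (wf v) (z p.1) + pot d f (wf v) (z p.2) -
            Real.log (v.val (wd (z p.1) (z p.2)))|) A₃
        (fun p hp => hcost _ _ (Finset.mem_offDiag.1 hp).2.2)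
      refine h1.trans ?_
      rw [nsmul_eq_mul]
      refine mul_le_mul_of_nonneg_right ?_ hA₃0
      have h2 : (univ : Finset (Fin (m + 3))).offDiag.card ≤ (2 * N) ^ 2 := by
        rw [Finset.offDiag_card, Finset.card_univ, Fintype.card_fin, sq]
        refine (Nat.sub_le _ _).trans ?_
        exact Nat.mul_le_mul (by omega) (by omega)
      exact_mod_cast h2)).1
  have hfr : (1 : ℝ) ≤ finrank ℚ K := by
    have : 1 ≤ finrank ℚ K := finrank_pos
    exact_mod_cast this
  have hHa : ∀ a, NF.ht (xx z a) ≤ H := by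
    intro a
    have h1 := hQ a
    unfold NF.ht
    rw [div_le_iff₀ (by linarith)]
    nlinarith
  -- enough points
  set I : Finset (Fin (m + 2)) := univ.filter fun a => z a.succ ∈ X₁ with hI
  have hIc : 2 * d + 1 ≤ I.card := by
    have h1 : X₁ ⊆ insert (z 0) (I.image fun a => z a.succ) := by
      intro x hx
      obtain ⟨i, hi⟩ : ∃ i, z i = x := ⟨e.symm ⟨x, hXZ hx⟩, by simp [z]⟩
      induction i using Fin.cases with
      | zero => rw [← hi]; exact Finset.mem_insert_self _ _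
      | succ a =>
        refine Finset.mem_insert_of_mem (Finset.mem_image.2 ⟨a, ?_, hi⟩)
        exact Finset.mem_filter.2 ⟨mem_univ _, by rw [hi]; exact hx⟩
    have h2 := (Finset.card_le_card h1).trans (Finset.card_insert_le _ _)
    have h3 := Finset.card_image_le (s := I) (f := fun a => z a.succ)
    omega
  obtain ⟨J, hJI, hJc⟩ := Finset.exists_subset_card_eq hIc
  let σ' : Fin (2 * d + 1) ≃ J := (Finset.equivFinOfCardEq hJc).symm
  have hσX : ∀ i, z (σ' i : Fin (m + 2)).succ ∈ X₁ := fun i =>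
    (Finset.mem_filter.1 (hJI (σ' i).2)).2
  choose y hyZ hy using fun i => hX₁im _ (hσX i)
  have hτ : ∀ i, ∃ b, z b = y i := fun i => ⟨e.symm ⟨y i, hyZ i⟩, by simp [z]⟩
  choose τ hτ using hτ
  obtain ⟨g, L, c, hL, hc, hg, hgf, hght⟩ := cfg_conj hf hz z hzz (fun i => (σ' i : Fin (m + 2)))
    (fun i k h => σ'.injective (Subtype.ext h)) τ (fun i => by rw [hτ]; exact hy i) H hHa
  refine ⟨g, L, c, hL, hc, hg, hgf, fun i n => ?_⟩
  have h1 := hght i n
  unfold NF.ht at h1
  rw [div_le_iff₀ (by linarith)] at h1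
  refine h1.trans ?_
  rw [mul_comm]
  refine mul_le_mul_of_nonneg_right (by exact_mod_cast hK) (by positivity)

end TH951.FE
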