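import Mathlib
import Pool.Agent.TH951.FE.Fin
import Pool.Agent.W180.TP.Nor

/-! Finiteness of the maps with many points of small height. -/

set_option autoImplicit false

open Height NumberField Module Finset Pool.Agent.H951R3.PB

namespace TH951.FE

universe u

theorem coeff_eq {Ω : Type u} [Field Ω] {d : ℕ} {p q : MvPolynomial (Fin 2) Ω}
    (hp : p.IsHomogeneous d) (hq : q.IsHomogeneous d)
    (h : ∀ j : Fin (d + 1), p.coeff (Finsupp.single 0 (j : ℕ) + Finsupp.single 1 (d - j)) =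
      q.coeff (Finsupp.single 0 (j : ℕ) + Finsupp.single 1 (d - j))) : p = q := by
  ext m
  rw [coeff_dh hp, coeff_dh hq]
  split_ifs with hm
  · have h1 : m 0 < d + 1 := by omega
    have h2 := h ⟨m 0, h1⟩
    rw [coeff_dh hp, coeff_dh hq] at h2
    have h3 : (Finsupp.single 0 (m 0) + Finsupp.single 1 (d - m 0) : Fin 2 →₀ ℕ) 0 = m 0 := by
      simp
    have h4 : (Finsupp.single 0 (m 0) + Finsupp.single 1 (d - m 0) : Fin 2 →₀ ℕ) 1 = d - m 0 := by
      simp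
    simp only [h3, h4] at h2
    rw [if_pos (by omega), if_pos (by omega)] at h2
    exact h2
  · rfl

theorem forms_finite {Ω : Type u} [Field Ω] (d : ℕ) {U : Set Ω} (hU : U.Finite) :
    {G : Fin 2 → MvPolynomial (Fin 2) Ω | (∀ i, (G i).IsHomogeneous d) ∧
      ∀ i m, (G i).coeff m ∈ U}.Finite := by
  refine Set.Finite.of_finite_image (f := cf d) ?_ ?_
  · refine (Set.Finite.pi (t := fun _ : Fin 2 × Fin (d + 1) => U) fun _ => hU).subset ?_
    rintro _ ⟨G, hG, rfl⟩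
    rw [Set.mem_pi]
    intro e _
    exact hG.2 _ _
  · intro G hG G' hG' h
    funext i
    refine coeff_eq (hG.1 i) (hG'.1 i) fun j => ?_
    exact congrFun h (i, j)

theorem final (d : ℕ) (hd : 2 ≤ d) (D : ℕ) : ∃ (N : ℕ) (δ η : ℝ), 0 < δ ∧ 0 < η ∧
    ∀ M₀ : ℕ, M₀ ≠ 0 → ∃ Φ : Set (Fin 2 → MvPolynomial (Fin 2) (AlgebraicClosure ℚ)),
      Φ.Finite ∧
    ∀ (K : Type) [Field K] [NumberField K], finrank ℚ K ≤ D →
    ∀ f : Fin 2 → MvPolynomial (Fin 2) K, (∀ i, (f i).IsHomogeneous d) →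
      (∀ x : Fin 2 → AlgebraicClosure K, (∀ i, MvPolynomial.aeval x (f i) = 0) → x = 0) →
    ∀ (wi : InfinitePlace K → AbsoluteValue (AlgebraicClosure K) ℝ) (_ : ∀ v, Ext v.val (wi v))
      (wf : FinitePlace K → AbsoluteValue (AlgebraicClosure K) ℝ) (_ : ∀ v, Ext v.val (wf v))
      (T : Finset (FinitePlace K)), (∀ v, v ∉ T → PotGood v.val d f) →
      ∑ v ∈ T.filter (fun v => v.val (M₀ : K) = 1), (1 + max (msz d f (wf v)) 0) ≤
        δ * big d f wi wf (T.filter fun v => v.val (M₀ : K) ≠ 1) →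
    ∀ X : Finset (Fin 2 → K), N ≤ X.card → (∀ x ∈ X, x ≠ 0) →
      (∀ x ∈ X, ∀ y ∈ X, x ≠ y → wd x y ≠ 0) →
      (∀ x ∈ X, hcan d f x ≤ η * big d f wi wf (T.filter fun v => v.val (M₀ : K) ≠ 1)) →
    ∀ σ : K →+* AlgebraicClosure ℚ,
    ∃ (g : Fin 2 → MvPolynomial (Fin 2) K) (L : Matrix (Fin 2) (Fin 2) K) (c : K), L.det ≠ 0 ∧
      c ≠ 0 ∧ (∀ i, (g i).IsHomogeneous d) ∧
      (∀ x : Fin 2 → K, c • L.mulVec (ev f x) = ev g (L.mulVec x)) ∧
      (fun i => (g i).map σ) ∈ Φ := by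
  classical
  obtain ⟨N, δ, η, hδ, hη, hfin⟩ := fin_main.{0} d hd D
  refine ⟨N, δ, η, hδ, hη, fun M₀ hM₀ => ?_⟩
  obtain ⟨A, hA⟩ := hfin M₀ hM₀
  set U : Set (AlgebraicClosure ℚ) := {u | ∃ (L : Type) (_ : Field L) (_ : NumberField L)
    (σ : L →+* AlgebraicClosure ℚ) (u' : L), σ u' = u ∧
      Module.finrank ℚ L ≤ D ∧ logHeight₁ u' ≤ A} with hU
  have hUf : U.Finite := Pool.Agent.W180.TP.northcott_bdd (AlgebraicClosure ℚ) D A
  refine ⟨_, forms_finite d hUf, ?_⟩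
  intro K _ _ hK f hf hz wi hwi wf hwf T hT hsmall X hXN hX0 hX hcanX σ
  have hex : ∀ v : FinitePlace K, ∃ w : AbsoluteValue (AlgebraicClosure K) ℝ, Ext v.val w ∧
      (v ∈ T → w = wf v) ∧ (v ∉ T → PotGoodAt w d f) := by
    intro v
    by_cases h : v ∈ T
    · exact ⟨wf v, hwf v, fun _ => rfl, fun h' => absurd h h'⟩
    · obtain ⟨w, h1, h2⟩ := hT v h
      exact ⟨w, h1, fun h' => absurd h' h, fun _ => h2⟩
  choose wf' hwf' hT' hgood' using hex
  have hbig : big d f wi wf' (T.filter fun v => v.val (M₀ : K) ≠ 1) =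
      big d f wi wf (T.filter fun v => v.val (M₀ : K) ≠ 1) := by
    unfold big
    congr 1
    refine Finset.sum_congr rfl fun v hv => ?_
    rw [hT' v (Finset.mem_filter.1 hv).1]
  have hoff : ∑ v ∈ T.filter (fun v => v.val (M₀ : K) = 1), (1 + max (msz d f (wf' v)) 0) =
      ∑ v ∈ T.filter (fun v => v.val (M₀ : K) = 1), (1 + max (msz d f (wf v)) 0) :=
    Finset.sum_congr rfl fun v hv => by rw [hT' v (Finset.mem_filter.1 hv).1]
  obtain ⟨g, L, c, hL, hc, hg, hgf, hgA⟩ := hA K hK f hf hz wi hwi wf' hwf' T hgood'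
    (by rw [hoff, hbig]; exact hsmall) X hXN hX0 hX (by rw [hbig]; exact hcanX)
  refine ⟨g, L, c, hL, hc, hg, hgf, fun i => (hg i).map σ, fun i m => ?_⟩
  exact ⟨K, inferInstance, inferInstance, σ, (g i).coeff m, (MvPolynomial.coeff_map _ _ _).symm,
    hK, hgA i m⟩

end TH951.FE
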