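import Mathlib
import Pool.Agent.TH951.FE.Dyn
import Pool.Agent.TH450.DL.A
import Pool.Agent.H951R3.PB.Lang

/-! Wandering points of maps with little bad reduction outside `S`. -/

set_option autoImplicit false

open Height NumberField Module Finset Pool.Agent.H951R3.PB

namespace TH951.FE

universe u

theorem lang_unif (d : ℕ) (hd : 2 ≤ d) (D k l : ℕ)
    (P : Fin l → MvPolynomial (Fin 2 × Fin (d + 1)) ℤ) (hP : ∀ j, IsInv.{u} d k (P j)) :
    ∃ c δ : ℝ, 0 < c ∧ 0 < δ ∧ ∀ M : ℕ, M ≠ 0 → ∃ A : ℝ, 0 ≤ A ∧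
    ∀ (K : Type u) [Field K] [NumberField K], finrank ℚ K ≤ D →
    ∀ f : Fin 2 → MvPolynomial (Fin 2) K, (∀ i, (f i).IsHomogeneous d) →
      (∀ x : Fin 2 → AlgebraicClosure K, (∀ i, MvPolynomial.aeval x (f i) = 0) → x = 0) →
    ∀ (wi : InfinitePlace K → AbsoluteValue (AlgebraicClosure K) ℝ) (_ : ∀ v, Ext v.val (wi v))
      (wf : FinitePlace K → AbsoluteValue (AlgebraicClosure K) ℝ) (_ : ∀ v, Ext v.val (wf v))
      (T : Finset (FinitePlace K)), (∀ v, v ∉ T → PotGood v.val d f) →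
      ∑ v ∈ T.filter (fun v => v.val (M : K) = 1), (1 + max (msz d f (wf v)) 0) ≤
        δ * big d f wi wf (T.filter fun v => v.val (M : K) ≠ 1) →
      A < hmod d k l P f →
    ∀ x : Fin 2 → K, x ≠ 0 → ¬ Pre f x → c * hmod d k l P f ≤ hcan d f x := by
  classical
  obtain ⟨N, η, C, hη, hC, hdyn⟩ := dyn.{u} d hd D
  obtain ⟨C₃, hC₃, h3⟩ := Pool.Agent.TH450.DL.hmod_le_sum.{u} d hd k l P hP
  have hd1 : (1 : ℝ) < d := by exact_mod_cast (by omega : 1 < d)
  set E := Real.exp (-((N : ℝ) * Real.log d)) with hE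
  have hE0 : 0 < E := Real.exp_pos _
  refine ⟨η * E / (2 * C₃), min 1 (1 / (2 * C)), by positivity,
    lt_min one_pos (by positivity), ?_⟩
  intro M hM
  obtain ⟨A, hA, hdyn⟩ := hdyn M hM
  refine ⟨4 * C₃ * A, by positivity, ?_⟩
  intro K _ _ hK f hf hz wi hwi wf hwf T hT hsmall hAh x hx hpre
  have h0 : rs f d ≠ 0 := rs_ne_of_noZero (by omega) hf hz
  have hex : ∀ v : FinitePlace K, ∃ w : AbsoluteValue (AlgebraicClosure K) ℝ, Ext v.val w ∧
      (v ∈ T → w = wf v) ∧ (v ∉ T → PotGoodAt w d f) := by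
    intro v
    by_cases h : v ∈ T
    · exact ⟨wf v, hwf v, fun _ => rfl, fun h' => absurd h h'⟩
    · obtain ⟨w, h1, h2⟩ := hT v h
      exact ⟨w, h1, fun h' => absurd h' h, fun _ => h2⟩
  choose wf' hwf' hT' hgood' using hex
  have hbig : big d f wi wf' (T.filter fun v => v.val (M : K) ≠ 1) =
      big d f wi wf (T.filter fun v => v.val (M : K) ≠ 1) := by
    unfold big
    congr 1
    refine Finset.sum_congr rfl fun v hv => ?_
    rw [hT' v (Finset.mem_filter.1 hv).1]
  have hoff : ∑ v ∈ T.filter (fun v => v.val (M : K) = 1), (1 + max (msz d f (wf' v)) 0) =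
      ∑ v ∈ T.filter (fun v => v.val (M : K) = 1), (1 + max (msz d f (wf v)) 0) :=
    Finset.sum_congr rfl fun v hv => by rw [hT' v (Finset.mem_filter.1 hv).1]
  obtain ⟨bg, hbg⟩ : ∃ bg : ℝ, bg = big d f wi wf (T.filter fun v => v.val (M : K) ≠ 1) :=
    ⟨_, rfl⟩
  obtain ⟨off, hoffd⟩ : ∃ off : ℝ, off =
    ∑ v ∈ T.filter (fun v => v.val (M : K) = 1), (1 + max (msz d f (wf v)) 0) := ⟨_, rfl⟩
  rw [← hbg, ← hoffd] at hsmall
  have hs0 : ∀ w, 0 ≤ 1 + max (msz d f w) 0 := fun w => by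
    have : 0 ≤ max (msz d f w) 0 := le_max_right _ _
    linarith
  have hbg0 : 0 ≤ bg := by
    rw [hbg]
    exact add_nonneg (Finset.sum_nonneg fun v _ => mul_nonneg (Nat.cast_nonneg _) (hs0 _))
      (Finset.sum_nonneg fun v _ => hs0 _)
  have hoff0 : 0 ≤ off := by rw [hoffd]; exact Finset.sum_nonneg fun v _ => hs0 _
  have hle1 : off ≤ bg := by
    refine hsmall.trans ?_
    calc min 1 (1 / (2 * C)) * bg ≤ 1 * bg := mul_le_mul_of_nonneg_right (min_le_left _ _) hbg0
      _ = bg := one_mul _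
  have hle2 : C * off ≤ bg / 2 := by
    have h1 : min 1 (1 / (2 * C)) * bg ≤ 1 / (2 * C) * bg :=
      mul_le_mul_of_nonneg_right (min_le_right _ _) hbg0
    have h2 := mul_le_mul_of_nonneg_left (hsmall.trans h1) hC.le
    have h4 : C * (1 / (2 * C) * bg) = bg / 2 := by field_simp
    linarith
  have hhm : hmod d k l P f ≤ 2 * C₃ * bg := by
    have h5 := h3 K f hf h0 wi hwi wf hwf T hT
    have h6 : ∑ v : InfinitePlace K, (1 + max (msz d f (wi v)) 0) +
        ∑ v ∈ T, (1 + max (msz d f (wf v)) 0) ≤ bg + off := by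
      rw [← Finset.sum_filter_add_sum_filter_not T (fun v => v.val (M : K) = 1), ← hoffd, hbg]
      unfold big
      have h7 : ∑ v : InfinitePlace K, (1 + max (msz d f (wi v)) 0) ≤
          ∑ v : InfinitePlace K, (v.mult : ℝ) * (1 + max (msz d f (wi v)) 0) := by
        refine Finset.sum_le_sum fun v _ => ?_
        have h8 : (1 : ℝ) ≤ v.mult := by exact_mod_cast InfinitePlace.mult_pos
        nlinarith [hs0 (wi v)]
      linarith
    have h9 := mul_le_mul_of_nonneg_left (h6.trans (add_le_add le_rfl hle1)) hC₃.le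
    linarith
  have hh0 : 0 < hmod d k l P f := lt_of_le_of_lt (by positivity) hAh
  have hbgA : 2 * A < bg := by
    have h1 : 4 * C₃ * A < 2 * C₃ * bg := lt_of_lt_of_le hAh hhm
    have h2 : 0 < 2 * C₃ := by positivity
    nlinarith
  have hbgp : 0 < bg := by linarith
  have hfin := Pool.Agent.TH450.DL.wander_gen hd hf h0 (A := (N : ℝ)) (η := η * bg)
    (Nat.cast_nonneg _) (by positivity) (fun X hX0 hX hcX => by
      by_contra hcon
      push Not at hcon
      have hN : N ≤ X.card := by exact_mod_cast hcon.le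
      have h := hdyn K hK f hf h0 wi hwi wf' hwf' T hgood' X hN hX0 hX (fun x hx => by
        rw [hbig, ← hbg]; exact hcX x hx)
      rw [hbig, hoff, ← hbg, ← hoffd] at h
      linarith) hx hpre
  refine le_trans ?_ hfin
  rw [← hE]
  have h1 : η * E / (2 * C₃) * hmod d k l P f ≤ η * E / (2 * C₃) * (2 * C₃ * bg) :=
    mul_le_mul_of_nonneg_left hhm (by positivity)
  refine h1.trans (le_of_eq ?_)
  field_simp

end TH951.FE
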